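import Pool.Agent.X177.RL.Defs

set_option autoImplicit false

namespace Pool.Agent.X177.RL

open Cardinal Ordinal ZFSet

universe u

theorem mem_ords {δ : Ordinal.{u}} {p : Ordinal.{u} → Prop} {z : ZFSet.{u}} :
    z ∈ ords δ p ↔ ∃ β < δ, β.toZFSet = z ∧ p β := by
  rw [ords, mem_sep, mem_toZFSet_iff]
  constructor
  · rintro ⟨⟨β, hβ, rfl⟩, hp⟩
    rw [rank_toZFSet] at hp
    exact ⟨β, hβ, rfl, hp⟩
  · rintro ⟨β, hβ, rfl, hp⟩
    rw [rank_toZFSet]
    exact ⟨⟨β, hβ, rfl⟩, hp⟩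

theorem toZFSet_mem_ords {δ β : Ordinal.{u}} {p : Ordinal.{u} → Prop} :
    β.toZFSet ∈ ords δ p ↔ β < δ ∧ p β := by
  rw [mem_ords]
  constructor
  · rintro ⟨β', h, he, hp⟩
    rw [toZFSet_injective he] at h hp
    exact ⟨h, hp⟩
  · rintro ⟨h, hp⟩
    exact ⟨β, h, rfl, hp⟩

theorem ords_subset {δ : Ordinal.{u}} {p : Ordinal.{u} → Prop} : ords δ p ⊆ δ.toZFSet := by
  intro z hz
  obtain ⟨β, h, rfl, -⟩ := mem_ords.1 hz
  exact mem_toZFSet_iff.2 ⟨β, h, rfl⟩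

/-- Extensionality for subsets of an ordinal. -/
theorem subset_iff {δ : Ordinal.{u}} {A B : ZFSet.{u}} (hA : A ⊆ δ.toZFSet) :
    A ⊆ B ↔ ∀ β < δ, β.toZFSet ∈ A → β.toZFSet ∈ B := by
  constructor
  · intro h β _ hβ
    exact h hβ
  · intro h z hz
    obtain ⟨β, hβ, rfl⟩ := mem_toZFSet_iff.1 (hA hz)
    exact h β hβ hz

theorem eq_iff {δ : Ordinal.{u}} {A B : ZFSet.{u}} (hA : A ⊆ δ.toZFSet) (hB : B ⊆ δ.toZFSet) :
    A = B ↔ ∀ β < δ, β.toZFSet ∈ A ↔ β.toZFSet ∈ B := by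
  constructor
  · rintro rfl β _
    rfl
  · intro h
    ext z
    constructor
    · intro hz
      obtain ⟨β, hβ, rfl⟩ := mem_toZFSet_iff.1 (hA hz)
      exact (h β hβ).1 hz
    · intro hz
      obtain ⟨β, hβ, rfl⟩ := mem_toZFSet_iff.1 (hB hz)
      exact (h β hβ).2 hz

theorem mem_seq {δ : Ordinal.{u}} {A : Ordinal.{u} → ZFSet.{u}} {z : ZFSet.{u}} :
    z ∈ seq δ A ↔ ∃ β < δ, pair β.toZFSet (A β) = z := by
  rw [seq, ZFSet.mem_range]
  constructor
  · rintro ⟨⟨β, hβ⟩, rfl⟩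
    exact ⟨β, hβ, rfl⟩
  · rintro ⟨β, hβ, rfl⟩
    exact ⟨⟨β, hβ⟩, rfl⟩

theorem pair_mem_seq {δ : Ordinal.{u}} {A : Ordinal.{u} → ZFSet.{u}} {a y : ZFSet.{u}} :
    pair a y ∈ seq δ A ↔ ∃ β < δ, β.toZFSet = a ∧ A β = y := by
  rw [mem_seq]
  constructor
  · rintro ⟨β, hβ, h⟩
    rw [pair_inj] at h
    exact ⟨β, hβ, h.1, h.2⟩
  · rintro ⟨β, hβ, rfl, rfl⟩
    exact ⟨β, hβ, rfl⟩

theorem seq_congr {δ : Ordinal.{u}} {A B : Ordinal.{u} → ZFSet.{u}} (h : ∀ β < δ, A β = B β) :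
    seq δ A = seq δ B := by
  ext z
  rw [mem_seq, mem_seq]
  constructor
  · rintro ⟨β, hβ, rfl⟩
    exact ⟨β, hβ, by rw [h β hβ]⟩
  · rintro ⟨β, hβ, rfl⟩
    exact ⟨β, hβ, by rw [h β hβ]⟩

theorem ords_congr {δ : Ordinal.{u}} {p q : Ordinal.{u} → Prop} (h : ∀ β < δ, p β ↔ q β) :
    ords δ p = ords δ q := by
  rw [eq_iff ords_subset ords_subset]
  intro β hβ
  rw [toZFSet_mem_ords, toZFSet_mem_ords, h β hβ]

open Classical in
/-- The value of a function at an argument. -/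
noncomputable def app (z a : ZFSet.{u}) : ZFSet.{u} :=
  if h : ∃ y, pair a y ∈ z then h.choose else ∅

theorem app_seq {δ : Ordinal.{u}} {A : Ordinal.{u} → ZFSet.{u}} {β : Ordinal.{u}} (hβ : β < δ) :
    app (seq δ A) β.toZFSet = A β := by
  have h : ∃ y, pair β.toZFSet y ∈ seq δ A := ⟨A β, pair_mem_seq.2 ⟨β, hβ, rfl, rfl⟩⟩
  rw [app, dif_pos h]
  obtain ⟨β', h1, h2, h3⟩ := pair_mem_seq.1 h.choose_spec
  rw [← h3, toZFSet_injective h2]

/-- The set is a function. -/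
def Fn (z : ZFSet.{u}) : Prop := ∀ a y y', pair a y ∈ z → pair a y' ∈ z → y = y'

theorem fn_seq (δ : Ordinal.{u}) (A : Ordinal.{u} → ZFSet.{u}) : Fn (seq δ A) := by
  intro a y y' h h'
  obtain ⟨β, -, h1, rfl⟩ := pair_mem_seq.1 h
  obtain ⟨β', -, h1', rfl⟩ := pair_mem_seq.1 h'
  rw [toZFSet_injective (h1.trans h1'.symm)]

theorem app_eq {z a y : ZFSet.{u}} (hz : Fn z) (h : pair a y ∈ z) : app z a = y := by
  have h' : ∃ y, pair a y ∈ z := ⟨y, h⟩
  rw [app, dif_pos h']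
  exact hz _ _ _ h'.choose_spec h

open Classical in
/-- The first component. -/
noncomputable def fst (z : ZFSet.{u}) : ZFSet.{u} :=
  if h : ∃ a b, z = pair a b then h.choose else ∅

open Classical in
/-- The second component. -/
noncomputable def snd (z : ZFSet.{u}) : ZFSet.{u} :=
  if h : ∃ b a, z = pair a b then h.choose else ∅

@[simp] theorem fst_pair (a b : ZFSet.{u}) : fst (pair a b) = a := by
  have h : ∃ a' b', pair a b = pair a' b' := ⟨a, b, rfl⟩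
  rw [fst, dif_pos h]
  obtain ⟨b', hb'⟩ := h.choose_spec
  exact (pair_inj.1 hb').1.symm

@[simp] theorem snd_pair (a b : ZFSet.{u}) : snd (pair a b) = b := by
  have h : ∃ b' a', pair a b = pair a' b' := ⟨b, a, rfl⟩
  rw [snd, dif_pos h]
  obtain ⟨b', hb'⟩ := h.choose_spec
  exact (pair_inj.1 hb').2.symm

theorem rank_pair_lt {a b : ZFSet.{u}} {δ : Ordinal.{u}} (hδ : Order.IsSuccLimit δ)
    (ha : rank a < δ) (hb : rank b < δ) : rank (pair a b) < δ := by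
  have h1 : Order.succ (rank a) < δ := hδ.succ_lt ha
  have h2 : Order.succ (rank b) < δ := hδ.succ_lt hb
  rw [pair]
  rw [rank_pair, rank_singleton, rank_pair]
  refine max_lt (hδ.succ_lt h1) (hδ.succ_lt (max_lt h1 h2))

theorem rank_seq_lt {δ ε : Ordinal.{u}} {A : Ordinal.{u} → ZFSet.{u}} {lam : Ordinal.{u}}
    (hlam : Order.IsSuccLimit lam) (hδ : δ < lam) (hε : ε < lam)
    (hA : ∀ β < δ, rank (A β) ≤ ε) : rank (seq δ A) < lam := by
  have h1 : rank (seq δ A) ≤ Order.succ (Order.succ (Order.succ (max δ ε))) := by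
    rw [rank_le_iff]
    intro z hz
    obtain ⟨β, hβ, rfl⟩ := mem_seq.1 hz
    have h2 : rank (β.toZFSet) ≤ max δ ε := by
      rw [rank_toZFSet]
      exact hβ.le.trans (le_max_left _ _)
    have h3 : rank (A β) ≤ max δ ε := (hA β hβ).trans (le_max_right _ _)
    have h4 : Order.succ (rank β.toZFSet) ≤ Order.succ (max δ ε) := Order.succ_le_succ h2
    have h5 : Order.succ (rank (A β)) ≤ Order.succ (max δ ε) := Order.succ_le_succ h3
    rw [pair, rank_pair, rank_singleton, rank_pair, Order.lt_succ_iff]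
    refine max_le ?_ ?_
    · exact Order.succ_le_succ h4
    · exact Order.succ_le_succ (max_le h4 h5)
  exact h1.trans_lt (hlam.succ_lt (hlam.succ_lt (hlam.succ_lt (max_lt hδ hε))))

section H

variable {θ : Cardinal.{u}}

theorem H_trans {x y : ZFSet.{u}} (hx : x ∈ H θ) (hy : y ∈ x) : y ∈ H θ := by
  obtain ⟨t, h1, h2, h3⟩ := hx
  exact ⟨t, h1, h1.subset_of_mem h2 hy, h3⟩

theorem mem_H_of_subset (hθ : ℵ₀ ≤ θ) {x t : ZFSet.{u}} (ht : t.IsTransitive) (hx : x ⊆ t)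
    (hc : t.card < θ) : x ∈ H θ := by
  refine ⟨insert x t, ?_, mem_insert _ _, ?_⟩
  · intro y hy z hz
    rw [mem_insert_iff] at hy ⊢
    rcases hy with rfl | hy
    · exact Or.inr (hx hz)
    · exact Or.inr (ht.subset_of_mem hy hz)
  · refine card_insert_le.trans_lt ?_
    exact Cardinal.add_lt_of_lt hθ hc (Cardinal.one_lt_aleph0.trans_le hθ)

theorem isTransitive_toZFSet (β : Ordinal.{u}) : β.toZFSet.IsTransitive :=
  (isOrdinal_toZFSet β).isTransitive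

theorem subset_toZFSet_mem_H (hθ : ℵ₀ ≤ θ) {β : Ordinal.{u}} {x : ZFSet.{u}}
    (hx : x ⊆ β.toZFSet) (hc : β.card < θ) : x ∈ H θ :=
  mem_H_of_subset hθ (isTransitive_toZFSet β) hx (by rwa [card_toZFSet])

theorem toZFSet_mem_H (hθ : ℵ₀ ≤ θ) {β : Ordinal.{u}} (hc : β.card < θ) : β.toZFSet ∈ H θ :=
  subset_toZFSet_mem_H hθ (fun _ h => h) hc

theorem empty_mem_H (hθ : ℵ₀ ≤ θ) : (∅ : ZFSet.{u}) ∈ H θ :=
  mem_H_of_subset hθ isTransitive_empty (empty_subset _)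
    (by rw [card_empty]; exact Cardinal.aleph0_pos.trans_le hθ)

theorem pair_mem_H (hθ : ℵ₀ ≤ θ) {a b : ZFSet.{u}} (ha : a ∈ H θ) (hb : b ∈ H θ) :
    pair a b ∈ H θ := by
  obtain ⟨t, h1, h2, h3⟩ := ha
  obtain ⟨s, h4, h5, h6⟩ := hb
  have h7 : (t ∪ s).IsTransitive := h1.union h4
  have ha' : a ∈ t ∪ s := mem_union.2 (Or.inl h2)
  have hb' : b ∈ t ∪ s := mem_union.2 (Or.inr h5)
  have hc : (t ∪ s).card < θ := card_union_le.trans_lt (Cardinal.add_lt_of_lt hθ h3 h6)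
  have h8 : (insert {a} (insert {a, b} (t ∪ s)) : ZFSet.{u}).IsTransitive := by
    intro y hy z hz
    rw [mem_insert_iff, mem_insert_iff] at hy ⊢
    right; right
    rcases hy with rfl | rfl | hy
    · rw [mem_singleton] at hz
      rw [hz]; exact ha'
    · rw [mem_pair] at hz
      rcases hz with rfl | rfl
      · exact ha'
      · exact hb'
    · exact h7.subset_of_mem hy hz
  refine mem_H_of_subset hθ h8 ?_ ?_
  · intro z hz
    rw [pair, mem_pair] at hz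
    rw [mem_insert_iff, mem_insert_iff]
    rcases hz with rfl | rfl
    · exact Or.inl rfl
    · exact Or.inr (Or.inl rfl)
  · have h1θ : 1 < θ := Cardinal.one_lt_aleph0.trans_le hθ
    refine card_insert_le.trans_lt (Cardinal.add_lt_of_lt hθ ?_ h1θ)
    exact card_insert_le.trans_lt (Cardinal.add_lt_of_lt hθ hc h1θ)

/-- The set of ranks of the elements of a transitive set is an ordinal. -/
theorem exists_rank_eq {t : ZFSet.{u}} (ht : t.IsTransitive) :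
    ∀ x ∈ t, ∀ β ≤ rank x, ∃ y ∈ t, rank y = β := by
  intro x
  induction x using ZFSet.inductionOn with
  | h x ih =>
    intro hx β hβ
    rcases hβ.eq_or_lt with h | h
    · exact ⟨x, hx, h.symm⟩
    · obtain ⟨y, hy, hβy⟩ := lt_rank_iff.1 h
      exact ih y hy (ht.subset_of_mem hx hy) β hβy

theorem rank_lt_of_mem_H {x : ZFSet.{u}} (hx : x ∈ H θ) : rank x < θ.ord := by
  obtain ⟨t, h1, h2, h3⟩ := hx
  rw [Cardinal.lt_ord]
  refine lt_of_le_of_lt ?_ h3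
  haveI : Definable₁ (fun y : ZFSet.{u} => (rank y).toZFSet) :=
    Classical.allZFSetDefinable _
  have h4 : (rank x).toZFSet ⊆ ZFSet.image (fun y => (rank y).toZFSet) t := by
    intro z hz
    obtain ⟨β, hβ, rfl⟩ := mem_toZFSet_iff.1 hz
    obtain ⟨y, hy, rfl⟩ := exists_rank_eq h1 x h2 β hβ.le
    exact mem_image.2 ⟨y, hy, rfl⟩
  rw [← card_toZFSet]
  exact (card_mono h4).trans card_image_le

end H

end Pool.Agent.X177.RL
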