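import Mathlib

set_option autoImplicit false

/-!
Ramsey-like cardinals `Ψ^∀_ω` (problem `MP_7fbf3d_lc`): definitions. The sets are the elements of
`ZFSet.{u}`, Mathlib's model of ZFC; the ordinal `β` is the set `β.toZFSet` of the smaller ones.
-/

namespace Pool.Agent.X177.RL

open Cardinal Ordinal ZFSet Set

universe u

/-- The first-order formulas of the language of set theory. -/
inductive Fml : Type
  | mem (i j : ℕ) : Fml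
  | eq (i j : ℕ) : Fml
  | neg (φ : Fml) : Fml
  | and (φ ψ : Fml) : Fml
  | ex (i : ℕ) (φ : Fml) : Fml
  deriving Countable

/-- Satisfaction in the structure `(A, ∈)`. -/
def Sat (A : Set ZFSet.{u}) : Fml → (ℕ → ZFSet.{u}) → Prop
  | .mem i j, v => v i ∈ v j
  | .eq i j, v => v i = v j
  | .neg φ, v => ¬ Sat A φ v
  | .and φ ψ, v => Sat A φ v ∧ Sat A ψ v
  | .ex i φ, v => ∃ a ∈ A, Sat A φ (Function.update v i a)

/-- `(M, ∈)` is an elementary substructure of `(A, ∈)`. -/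
def Elem (M A : Set ZFSet.{u}) : Prop :=
  M ⊆ A ∧ ∀ (φ : Fml) (v : ℕ → ZFSet.{u}), (∀ i, v i ∈ M) → (Sat M φ v ↔ Sat A φ v)

/-- `H(θ)`, the sets of hereditary cardinality less than `θ`. -/
def H (θ : Cardinal.{u}) : Set ZFSet.{u} :=
  {x | ∃ t : ZFSet.{u}, t.IsTransitive ∧ x ∈ t ∧ t.card < θ}

/-- The set `{β < δ : p β}`. -/
noncomputable def ords (δ : Ordinal.{u}) (p : Ordinal.{u} → Prop) : ZFSet.{u} :=
  δ.toZFSet.sep fun z => p z.rank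

/-- The sequence `⟨A β : β < δ⟩` as a set. -/
noncomputable def seq (δ : Ordinal.{u}) (A : Ordinal.{u} → ZFSet.{u}) : ZFSet.{u} :=
  ZFSet.range fun β : Iio δ => pair (toZFSet β.1) (A β.1)

/-- The diagonal intersection of `⟨A γ : γ < κ⟩`. -/
noncomputable def diag (κ : Cardinal.{u}) (A : Ordinal.{u} → ZFSet.{u}) : ZFSet.{u} :=
  ords κ.ord fun β => ∀ γ < β, β.toZFSet ∈ A γ

/-- `C` is a closed unbounded subset of `κ`. -/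
def IsClub (κ : Cardinal.{u}) (C : Set Ordinal.{u}) : Prop :=
  (∀ β ∈ C, β < κ.ord) ∧ (∀ γ < κ.ord, ∃ β ∈ C, γ < β) ∧
    ∀ δ < κ.ord, δ ≠ 0 → (∀ γ < δ, ∃ β ∈ C, γ < β ∧ β < δ) → δ ∈ C

/-- `S` is stationary in `κ`. -/
def Stationary (κ : Cardinal.{u}) (S : Set Ordinal.{u}) : Prop :=
  ∀ C : Set Ordinal.{u}, IsClub κ C → ∃ β ∈ C, β ∈ S

/-- `M` is a weak `κ`-model which is an elementary submodel of `H(θ)`, and `U` is a uniform,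
`κ`-amenable, `M`-normal `M`-ultrafilter on `κ`. -/
structure Good (κ θ : Cardinal.{u}) (M U : Set ZFSet.{u}) : Prop where
  elem : Elem M (H θ)
  card : #M = Cardinal.lift.{u + 1} κ
  ord : ∀ β ≤ κ.ord, β.toZFSet ∈ M
  sub : ∀ A ∈ U, A ∈ M ∧ A ⊆ κ.ord.toZFSet
  univ : κ.ord.toZFSet ∈ U
  empty : ∅ ∉ U
  inter : ∀ A ∈ U, ∀ B ∈ U, A ∩ B ∈ U
  up : ∀ A ∈ U, ∀ B ∈ M, A ⊆ B → B ⊆ κ.ord.toZFSet → B ∈ U
  compl : ∀ A ∈ M, A ⊆ κ.ord.toZFSet → A ∈ U ∨ κ.ord.toZFSet \ A ∈ U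
  uniform : ∀ A ∈ U, A.card = κ
  amenable : ∀ A : Ordinal.{u} → ZFSet.{u}, (∀ β < κ.ord, A β ⊆ κ.ord.toZFSet) →
    seq κ.ord A ∈ M → ords κ.ord (fun β => A β ∈ U) ∈ M
  normal : ∀ A : Ordinal.{u} → ZFSet.{u}, (∀ β < κ.ord, A β ∈ U) →
    seq κ.ord A ∈ M → diag κ A ∈ U

/-- `U` is countably complete. -/
def CC (_ : Cardinal.{u}) (U : Set ZFSet.{u}) : Prop :=
  ∀ A : ℕ → ZFSet.{u}, (∀ n, A n ∈ U) → ∃ z, ∀ n, z ∈ A n

/-- `U` is normal: the diagonal intersection of an enumeration of `U` is stationary. -/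
def Normal (κ : Cardinal.{u}) (U : Set ZFSet.{u}) : Prop :=
  ∃ A : Ordinal.{u} → ZFSet.{u}, (∀ B, B ∈ U ↔ ∃ β < κ.ord, A β = B) ∧
    Stationary κ {β | ∀ γ < β, β.toZFSet ∈ A γ}

/-- `κ` is `Ψ^θ_ω`-Ramsey. -/
def RamseyAt (Ψ : Cardinal.{u} → Set ZFSet.{u} → Prop) (κ θ : Cardinal.{u}) : Prop :=
  ∀ x ∈ H θ, ∃ M U : Set ZFSet.{u}, Good κ θ M U ∧ x ∈ M ∧ Ψ κ U

/-- `κ` is `Ψ^∀_ω`-Ramsey. -/
def Ramsey (Ψ : Cardinal.{u} → Set ZFSet.{u} → Prop) (κ : Cardinal.{u}) : Prop :=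
  κ.IsRegular ∧ ℵ₀ < κ ∧ ∀ θ : Cardinal.{u}, θ.IsRegular → κ < θ → RamseyAt Ψ κ θ

end Pool.Agent.X177.RL
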