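import Pool.Agent.X177.RL.Basic

set_option autoImplicit false

namespace Pool.Agent.X177.RL

open Cardinal Ordinal ZFSet

universe u

/-- The formula `v_z = {v_a, v_b}`. -/
def isUP (z a b w : ℕ) : Fml :=
  .neg (.ex w (.neg (.and
    (.neg (.and (.mem w z) (.and (.neg (.eq w a)) (.neg (.eq w b)))))
    (.neg (.and (.neg (.mem w z)) (.neg (.and (.neg (.eq w a)) (.neg (.eq w b)))))))))

theorem sat_isUP {A : Set ZFSet.{u}} {z a b w : ℕ} {v : ℕ → ZFSet.{u}} (h1 : z ≠ w) (h2 : a ≠ w)
    (h3 : b ≠ w) : Sat A (isUP z a b w) v ↔ ∀ x ∈ A, (x ∈ v z ↔ x = v a ∨ x = v b) := by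
  simp only [isUP, Sat, Function.update_self, Function.update_of_ne h1, Function.update_of_ne h2,
    Function.update_of_ne h3]
  constructor
  · intro h x hx
    by_contra hn
    exact h ⟨x, hx, by tauto⟩
  · rintro h ⟨x, hx, hn⟩
    have := h x hx
    tauto

theorem isUP_real {θ : Cardinal.{u}} {z a b w : ℕ} {v : ℕ → ZFSet.{u}} (h1 : z ≠ w) (h2 : a ≠ w)
    (h3 : b ≠ w) (hz : v z ∈ H θ) (ha : v a ∈ H θ) (hb : v b ∈ H θ) :
    Sat (H θ) (isUP z a b w) v ↔ v z = {v a, v b} := by
  rw [sat_isUP h1 h2 h3]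
  constructor
  · intro h
    ext x
    rw [mem_pair]
    constructor
    · intro hx
      exact (h x (H_trans hz hx)).1 hx
    · rintro (rfl | rfl)
      · exact (h _ ha).2 (Or.inl rfl)
      · exact (h _ hb).2 (Or.inr rfl)
  · intro h x _
    rw [h, mem_pair]

variable {θ : Cardinal.{u}} {M : Set ZFSet.{u}}

theorem up_mem_H (hθ : ℵ₀ ≤ θ) {a b : ZFSet.{u}} (ha : a ∈ H θ) (hb : b ∈ H θ) :
    ({a, b} : ZFSet.{u}) ∈ H θ := by
  refine H_trans (pair_mem_H hθ ha hb) ?_
  rw [pair, mem_pair]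
  exact Or.inr rfl

theorem Elem.up (hθ : ℵ₀ ≤ θ) (h : Elem M (H θ)) {a b : ZFSet.{u}} (ha : a ∈ M) (hb : b ∈ M) :
    ({a, b} : ZFSet.{u}) ∈ M := by
  obtain ⟨h1, h2⟩ := h
  let v : ℕ → ZFSet.{u} := fun n => if n = 0 then a else b
  have hv : ∀ i, v i ∈ M := by
    intro i
    by_cases hi : i = 0
    · simp only [v, hi, if_true]; exact ha
    · simp only [v, hi, if_false]; exact hb
  have h3 : Sat (H θ) (.ex 2 (isUP 2 0 1 3)) v := by
    refine ⟨{a, b}, up_mem_H hθ (h1 ha) (h1 hb), ?_⟩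
    rw [isUP_real (by decide) (by decide) (by decide)]
    · simp [v]
    · simpa using up_mem_H hθ (h1 ha) (h1 hb)
    · simpa [v] using h1 ha
    · simpa [v] using h1 hb
  obtain ⟨z, hz, h4⟩ := (h2 _ v hv).2 h3
  have hv' : ∀ i, Function.update v 2 z i ∈ M := by
    intro i
    by_cases hi : i = 2
    · subst hi; simpa using hz
    · rw [Function.update_of_ne hi]; exact hv i
  have h5 := (h2 _ _ hv').1 h4
  rw [isUP_real (by decide) (by decide) (by decide) (h1 (hv' _)) (h1 (hv' _)) (h1 (hv' _))] at h5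
  have h6 : z = {a, b} := by simpa [v] using h5
  rw [← h6]
  exact hz

theorem Elem.pair (hθ : ℵ₀ ≤ θ) (h : Elem M (H θ)) {a b : ZFSet.{u}} (ha : a ∈ M) (hb : b ∈ M) :
    ZFSet.pair a b ∈ M := by
  rw [ZFSet.pair]
  have h1 : ({a} : ZFSet.{u}) ∈ M := by
    have := h.up hθ ha ha
    rwa [pair_eq_singleton] at this
  exact h.up hθ h1 (h.up hθ ha hb)

theorem update_mem {v : ℕ → ZFSet.{u}} {n : ℕ} {z : ZFSet.{u}} (hv : ∀ i, v i ∈ M) (hz : z ∈ M) :
    ∀ i, Function.update v n z i ∈ M := by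
  intro i
  by_cases hi : i = n
  · subst hi; simpa using hz
  · rw [Function.update_of_ne hi]; exact hv i

theorem Elem.app_mem (hθ : ℵ₀ ≤ θ) (h : Elem M (H θ)) {F a y : ZFSet.{u}} (hF : F ∈ M)
    (ha : a ∈ M) (hfn : Fn F) (hy : ZFSet.pair a y ∈ F) : y ∈ M := by
  have h0 := h
  obtain ⟨h1, h2⟩ := h
  let v : ℕ → ZFSet.{u} := fun n => if n = 0 then F else a
  have hv : ∀ i, v i ∈ M := by
    intro i
    by_cases hi : i = 0
    · simp only [v, hi, if_true]; exact hF
    · simp only [v, hi, if_false]; exact ha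
  have hp : ZFSet.pair a y ∈ H θ := H_trans (h1 hF) hy
  have hay : ({a, y} : ZFSet.{u}) ∈ H θ := H_trans hp (by rw [ZFSet.pair, mem_pair]; exact Or.inr rfl)
  have haa : ({a} : ZFSet.{u}) ∈ H θ := H_trans hp (by rw [ZFSet.pair, mem_pair]; exact Or.inl rfl)
  have hyH : y ∈ H θ := H_trans hay (by rw [mem_pair]; exact Or.inr rfl)
  have haH : a ∈ H θ := h1 ha
  have h3 : Sat (H θ) (.ex 2 (.ex 3 (.ex 4 (.ex 5
      (.and (.mem 3 0) (.and (isUP 4 1 1 6) (.and (isUP 5 1 2 6) (isUP 3 4 5 6)))))))) v := by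
    refine ⟨y, hyH, ZFSet.pair a y, hp, {a}, haa, {a, y}, hay, ?_, ?_, ?_, ?_⟩
    · simpa [Sat, Function.update, v] using hy
    · rw [isUP_real (by decide) (by decide) (by decide)]
      · simp [Function.update, v]
      · simpa [Function.update] using haa
      · simpa [Function.update, v] using haH
      · simpa [Function.update, v] using haH
    · rw [isUP_real (by decide) (by decide) (by decide)]
      · simp [Function.update, v]
      · simpa [Function.update] using hay
      · simpa [Function.update, v] using haH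
      · simpa [Function.update, v] using hyH
    · rw [isUP_real (by decide) (by decide) (by decide)]
      · simp [Function.update, ZFSet.pair]
      · simpa [Function.update] using hp
      · simpa [Function.update] using haa
      · simpa [Function.update] using hay
  obtain ⟨y', hy', p, hpM, s, hs, t, ht, h4⟩ := (h2 _ v hv).2 h3
  have hv5 := update_mem (update_mem (update_mem (update_mem hv hy' (n := 2)) hpM (n := 3)) hs
    (n := 4)) ht (n := 5)
  have h5 := (h2 _ _ hv5).1 h4
  obtain ⟨h6, h7, h8, h9⟩ := h5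
  rw [isUP_real (by decide) (by decide) (by decide) (h1 (hv5 _)) (h1 (hv5 _)) (h1 (hv5 _))]
    at h7 h8 h9
  have e6 : p ∈ F := by
    simpa [Sat, Function.update, v] using h6
  have e7 : s = {a} := by simpa [Function.update, v] using h7
  have e8 : t = {a, y'} := by simpa [Function.update, v] using h8
  have e9 : p = {s, t} := by simpa [Function.update, v] using h9
  rw [e9, e7, e8] at e6
  have : y = y' := hfn a y y' hy e6
  rw [this]
  exact hy'

end Pool.Agent.X177.RL
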