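import Pool.Agent.X177.RL.Main

set_option autoImplicit false

namespace Pool.Agent.X177.RL

open Cardinal Ordinal ZFSet

universe u

/-- The operations of the proof that `κ` is a strong limit. -/
noncomputable def G2 (κ : Cardinal.{u}) (f : Ordinal.{u} → ZFSet.{u}) :
    Bool → ZFSet.{u} → ZFSet.{u}
  | true, _ => seq κ.ord fun η => ords κ.ord fun ξ => η.toZFSet ∈ f ξ
  | false, R => seq κ.ord fun η => ords κ.ord fun ξ => (η.toZFSet ∈ f ξ ↔ η.toZFSet ∈ R)

theorem two_power_lt {Ψ : Cardinal.{u} → Set ZFSet.{u} → Prop} {κ : Cardinal.{u}}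
    (h : Ramsey Ψ κ) {μ : Cardinal.{u}} (hμ : μ < κ) : 2 ^ μ < κ := by
  classical
  by_contra hn
  push Not at hn
  have h1 : #(Set.Iio κ.ord) ≤ #(powerset μ.ord.toZFSet : ZFSet.{u}) := by
    rw [Cardinal.mk_Iio_ordinal, card_ord, cardinalMk_coe_sort, card_powerset, card_toZFSet,
      card_ord, Cardinal.lift_le]
    exact hn
  obtain ⟨F⟩ := Cardinal.le_def _ _ |>.1 h1
  let f : Ordinal.{u} → ZFSet.{u} := fun ξ => if hξ : ξ < κ.ord then (F ⟨ξ, hξ⟩).1 else ∅
  have hf : ∀ ξ, f ξ ⊆ μ.ord.toZFSet := by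
    intro ξ
    by_cases hξ : ξ < κ.ord
    · simp only [f, dif_pos hξ]
      exact mem_powerset.1 (F ⟨ξ, hξ⟩).2
    · simp only [f, dif_neg hξ]
      exact empty_subset _
  have hinj : ∀ ξ < κ.ord, ∀ ξ' < κ.ord, f ξ = f ξ' → ξ = ξ' := by
    intro ξ hξ ξ' hξ' he
    simp only [f, dif_pos hξ, dif_pos hξ'] at he
    exact congrArg Subtype.val (F.injective (Subtype.ext he))
  obtain ⟨θ, M, U, hθ, hg, -, hM⟩ := exists_model h (G2 κ f) (powerset κ.ord.toZFSet)
  have hZ : ∀ A : ZFSet.{u}, A ⊆ κ.ord.toZFSet → A ∈ powerset κ.ord.toZFSet := fun A hA =>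
    mem_powerset.2 hA
  have h0 : (∅ : ZFSet.{u}) ∈ M := by
    rw [← toZFSet_zero]
    exact hg.ord 0 zero_le
  set B : Ordinal.{u} → ZFSet.{u} := fun η => ords κ.ord fun ξ => η.toZFSet ∈ f ξ with hB
  have hBM : seq κ.ord B ∈ M := hM true ∅ h0 (hZ _ (empty_subset _))
  have hR := hg.amenable B (fun β _ => ords_subset) hBM
  set R := ords κ.ord (fun β => B β ∈ U) with hRdef
  set D : Ordinal.{u} → ZFSet.{u} := fun η =>
    ords κ.ord fun ξ => (η.toZFSet ∈ f ξ ↔ η.toZFSet ∈ R) with hD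
  have hDM : seq κ.ord D ∈ M := hM false R hR (hZ _ ords_subset)
  have hDU : ∀ β < κ.ord, D β ∈ U := by
    intro β hβ
    have hBβ : B β ∈ M := Elem.app_mem hθ hg.elem hBM (hg.ord β hβ.le) (fn_seq _ _)
      (pair_mem_seq.2 ⟨β, hβ, rfl, rfl⟩)
    by_cases hU : B β ∈ U
    · have h2 : D β = B β := by
        refine ords_congr fun ξ _ => ?_
        rw [hRdef, toZFSet_mem_ords]
        simp only [hβ, hU, true_and, iff_true]
      rw [h2]
      exact hU
    · rcases hg.compl (B β) hBβ ords_subset with h2 | h2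
      · exact absurd h2 hU
      · have h3 : D β = κ.ord.toZFSet \ B β := by
          rw [eq_iff ords_subset (fun z hz => (mem_sdiff.1 hz).1)]
          intro ξ hξ
          have h14 : ξ.toZFSet ∈ B β ↔ ξ < κ.ord ∧ β.toZFSet ∈ f ξ := toZFSet_mem_ords
          rw [toZFSet_mem_ords, mem_sdiff, toZFSet_mem_toZFSet_iff, h14, toZFSet_mem_ords]
          simp only [hξ, hβ, hU, true_and, and_false, iff_false]
        rw [h3]
        exact h2
  have h4 := hg.normal D hDU hDM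
  have h5 := hg.uniform _ h4
  have h6 : ∀ δ < κ.ord, ∃ ξ < κ.ord, δ ≤ ξ ∧ ξ.toZFSet ∈ diag κ D := by
    intro δ hδ
    by_contra hno
    push Not at hno
    have h7 : diag κ D ⊆ δ.toZFSet := by
      intro z hz
      obtain ⟨β, hβ, rfl, -⟩ := mem_ords.1 hz
      rw [toZFSet_mem_toZFSet_iff]
      by_contra hle
      exact hno β hβ (not_lt.1 hle) hz
    have h8 := card_mono h7
    rw [h5, card_toZFSet] at h8
    exact absurd ((Cardinal.lt_ord).1 hδ) (not_lt.2 h8)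
  have hμ' : μ.ord < κ.ord := ord_lt_ord.2 hμ
  obtain ⟨ξ, hξ, h7, h8⟩ := h6 μ.ord hμ'
  obtain ⟨ξ', hξ', h9, h10⟩ := h6 (Order.succ ξ) ((ord_isSuccLimit h.1).succ_lt hξ)
  have hlt : ξ < ξ' := Order.succ_le_iff.1 h9
  have h11 : f ξ = f ξ' := by
    rw [eq_iff (hf ξ) (hf ξ')]
    intro η hη
    have h12 := (toZFSet_mem_ords.1 h8).2 η (hη.trans_le h7)
    have h13 := (toZFSet_mem_ords.1 h10).2 η ((hη.trans_le h7).trans hlt)
    rw [(toZFSet_mem_ords.1 h12).2, (toZFSet_mem_ords.1 h13).2]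
  exact absurd (hinj ξ hξ ξ' hξ' h11) hlt.ne

end Pool.Agent.X177.RL
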