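import Pool.Agent.X177.RL.Ops

set_option autoImplicit false

namespace Pool.Agent.X177.RL

open Cardinal Ordinal ZFSet

universe u

/-- `{β < κ : A β ∈ U}` for the sequence `s` of the `A β`. -/
noncomputable def amen (κ : Cardinal.{u}) (U : Set ZFSet.{u}) (s : ZFSet.{u}) : ZFSet.{u} :=
  ords κ.ord fun β => app s β.toZFSet ∈ U

theorem amen_seq (κ : Cardinal.{u}) (U : Set ZFSet.{u}) (A : Ordinal.{u} → ZFSet.{u}) :
    amen κ U (seq κ.ord A) = ords κ.ord fun β => A β ∈ U :=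
  ords_congr fun β hβ => by rw [app_seq hβ]

/-- What we know about `M`, `U`, the hull `Y` and the ordinal `α`. -/
structure Loc (P : Par.{u}) (Z : ZFSet.{u}) (θ : Cardinal.{u}) (M U Y : Set ZFSet.{u})
    (α : Ordinal.{u}) : Prop where
  ok : P.Ok
  zok : ZOk P Z
  good : Good P.κ θ M U
  Mg : ∀ (o : Op), ∀ z ∈ M, z ∈ Z → g P o z ∈ M
  Mpair : ∀ a ∈ M, ∀ b ∈ M, pair a b ∈ M
  Mapp : ∀ (A : Ordinal.{u} → ZFSet.{u}), seq P.κ.ord A ∈ M → ∀ β < P.κ.ord, A β ∈ M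
  αK : α < P.κ.ord
  ωα : ω < α
  YM : Y ⊆ M
  Yg : ∀ (o : Op), ∀ z ∈ Y, z ∈ Z → g P o z ∈ Y
  Ypair : ∀ a ∈ Y, ∀ b ∈ Y, pair a b ∈ Y
  Yapp : ∀ s ∈ Y, ∀ β < α, app s β.toZFSet ∈ M → app s β.toZFSet ∈ Y
  Yamen : ∀ s ∈ Y, amen P.κ U s ∈ M → amen P.κ U s ∈ Y
  Yord : ∀ β < α, β.toZFSet ∈ Y
  YK : P.κ.ord.toZFSet ∈ Y
  Yrank : ∀ β < P.κ.ord, β.toZFSet ∈ Y → β < α
  Yp : ∀ i < α, ∀ j < α, P.p i j < α
  Ycard : #Y ≤ Cardinal.lift.{u + 1} α.card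
  gen : ∀ A ∈ Y, A ∈ U → α.toZFSet ∈ A
  cofinal : ∀ s : ℕ → ZFSet.{u}, (∀ n, s n ∈ Y ∧ s n ∈ U) →
    (∃ a : Cardinal.{u}, a.IsRegular ∧ ℵ₀ < a ∧ a.ord = α) → ∃ β < α, ∀ n, β.toZFSet ∈ s n
  hη : (¬ ∃ a : Cardinal.{u}, a.IsRegular ∧ a.ord = α) → P.η α < α ∧
    (∀ i < P.η α, P.c α i < α) ∧ ∀ ζ < α, ∃ i < P.η α, ζ ≤ P.c α i

namespace Loc

variable {P : Par.{u}} {Z : ZFSet.{u}} {θ : Cardinal.{u}} {M U Y : Set ZFSet.{u}}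
  {α : Ordinal.{u}} (L : Loc P Z θ M U Y α)

include L

theorem empty_mem : (∅ : ZFSet.{u}) ∈ Y := by
  rw [← toZFSet_zero]
  exact L.Yord 0 (zero_le.trans_lt L.ωα)

theorem empty_Z : (∅ : ZFSet.{u}) ∈ Z := L.zok.sub _ (empty_subset _)

theorem ord_Z {β : Ordinal.{u}} (hβ : β ≤ P.κ.ord) : β.toZFSet ∈ Z :=
  L.zok.sub _ (toZFSet_subset_toZFSet_iff.2 hβ)

/-- Members of sequences. -/
theorem seq_val {A : Ordinal.{u} → ZFSet.{u}} (h : seq P.κ.ord A ∈ Y) {β : Ordinal.{u}}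
    (hβ : β < α) : A β ∈ Y := by
  have h1 := L.Yapp _ h β hβ
  rw [app_seq (hβ.trans L.αK)] at h1
  exact h1 (L.Mapp A (L.YM h) β (hβ.trans L.αK))

theorem diff_mem {A B : ZFSet.{u}} (hA : A ∈ Y) (hB : B ∈ Y) (hA' : A ⊆ P.κ.ord.toZFSet)
    (hB' : B ⊆ P.κ.ord.toZFSet) : A \ B ∈ Y := by
  have := L.Yg .diff (pair A B) (L.Ypair _ hA _ hB) (L.zok.pair _ (L.zok.sub _ hA') _
    (L.zok.sub _ hB'))
  simpa [g] using this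

theorem mem_U_iff {A : ZFSet.{u}} (hA : A ∈ Y) (hA' : A ⊆ P.κ.ord.toZFSet) :
    A ∈ U ↔ α.toZFSet ∈ A := by
  constructor
  · exact L.gen A hA
  · intro h
    rcases L.good.compl A (L.YM hA) hA' with h1 | h1
    · exact h1
    · exfalso
      have h2 : P.κ.ord.toZFSet \ A ∈ Y := L.diff_mem L.YK hA (fun _ h => h) hA'
      exact (mem_sdiff.1 (L.gen _ h2 h1)).2 h

/-- The least element above a given ordinal. -/
theorem exists_nxt {A : ZFSet.{u}} (hA : A ∈ Y) (hA' : A ⊆ P.κ.ord.toZFSet) {δ : Ordinal.{u}}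
    (hδ : δ < α) (h : ∃ β < P.κ.ord, β.toZFSet ∈ A ∧ δ ≤ β) :
    ∃ β < α, β.toZFSet ∈ A ∧ δ ≤ β := by
  have h1 := L.Yg .nxt (pair A δ.toZFSet) (L.Ypair _ hA _ (L.Yord δ hδ))
    (L.zok.pair _ (L.zok.sub _ hA') _ (L.ord_Z (hδ.trans L.αK).le))
  simp only [g, fst_pair, snd_pair, rank_toZFSet] at h1
  obtain ⟨β₀, hβ₀, h2, h3⟩ := h
  have hne : {β : Ordinal.{u} | β.toZFSet ∈ A ∧ δ ≤ β}.Nonempty := ⟨β₀, h2, h3⟩
  have hm := csInf_mem hne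
  have hβ₁ : β₀ ∈ {β : Ordinal.{u} | β.toZFSet ∈ A ∧ δ ≤ β} := ⟨h2, h3⟩
  exact ⟨_, L.Yrank _ ((csInf_le' hβ₁).trans_lt hβ₀) h1, hm.1, hm.2⟩

theorem exists_mem {A : ZFSet.{u}} (hA : A ∈ Y) (hA' : A ⊆ P.κ.ord.toZFSet) (h : A ≠ ∅) :
    ∃ β < α, β.toZFSet ∈ A := by
  have h1 : ∃ z, z ∈ A := by
    by_contra hn
    push Not at hn
    exact h ((eq_empty A).2 hn)
  obtain ⟨z, hz⟩ := h1
  obtain ⟨β, hβ, rfl⟩ := mem_toZFSet_iff.1 (hA' hz)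
  obtain ⟨β', h2, h3, -⟩ := L.exists_nxt hA hA' (zero_le.trans_lt L.ωα)
    ⟨β, hβ, hz, zero_le⟩
  exact ⟨β', h2, h3⟩

theorem mono {R R' : ZFSet.{u}} (hR : R ∈ Y) (hR' : R' ∈ Y) (h1 : R' ⊆ P.κ.ord.toZFSet)
    (h : R ∩ α.toZFSet ⊆ R' ∩ α.toZFSet) (hU : R ∈ U) : R' ∈ U := by
  have h2 := (L.good.sub R hU).2
  rw [L.mem_U_iff hR' h1]
  by_contra hn
  have hD : R \ R' ∈ Y := L.diff_mem hR hR' h2 h1
  have hD' : R \ R' ⊆ P.κ.ord.toZFSet := fun z hz => h2 (mem_sdiff.1 hz).1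
  have h3 : R \ R' ∈ U := (L.mem_U_iff hD hD').2 (mem_sdiff.2 ⟨L.gen R hR hU, hn⟩)
  have h4 : R \ R' ≠ ∅ := by
    intro h0
    rw [h0] at h3
    exact L.good.empty h3
  obtain ⟨β, hβ, h5⟩ := L.exists_mem hD hD' h4
  have h6 := mem_sdiff.1 h5
  exact h6.2 (mem_inter.1 (h (mem_inter.2 ⟨h6.1, mem_toZFSet_iff.2 ⟨β, hβ, rfl⟩⟩))).1

/-- The lift of the value at `α`. -/
theorem exists_lift {w : ZFSet.{u}} (hw : w ∈ Y) (hw' : w ∈ Z) :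
    ∃ R ∈ Y, R ⊆ P.κ.ord.toZFSet ∧ ∀ ν < α, (ν.toZFSet ∈ R ↔ ν.toZFSet ∈ ev P α w) := by
  have h1 := L.Yg .B w hw hw'
  simp only [g] at h1
  have hsub : ∀ β < P.κ.ord, bVal P w β ⊆ P.κ.ord.toZFSet := fun β _ => ords_subset
  have h2 : amen P.κ U (seq P.κ.ord (bVal P w)) ∈ M := by
    rw [amen_seq]
    exact L.good.amenable _ hsub (L.YM h1)
  have h3 := L.Yamen _ h1 h2
  rw [amen_seq] at h3
  refine ⟨_, h3, ords_subset, fun ν hν => ?_⟩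
  rw [toZFSet_mem_ords]
  have h4 : bVal P w ν ∈ Y := L.seq_val h1 hν
  rw [L.mem_U_iff h4 (hsub ν (hν.trans L.αK)), bVal, toZFSet_mem_ords]
  exact ⟨fun h => h.2.2, fun h => ⟨hν.trans L.αK, L.αK, h⟩⟩

end Loc

/-- The model at `α`. -/
def NN (P : Par.{u}) (Z : ZFSet.{u}) (Y : Set ZFSet.{u}) (α : Ordinal.{u}) : Set ZFSet.{u} :=
  (fun w => ev P α w) '' {w | w ∈ Y ∧ w ∈ Z}

/-- The ultrafilter at `α`. -/
def UU (U Y : Set ZFSet.{u}) (α : Ordinal.{u}) : Set ZFSet.{u} :=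
  {x | ∃ R ∈ Y, R ∈ U ∧ x = R ∩ α.toZFSet}

namespace Loc

variable {P : Par.{u}} {Z : ZFSet.{u}} {θ : Cardinal.{u}} {M U Y : Set ZFSet.{u}}
  {α : Ordinal.{u}} (L : Loc P Z θ M U Y α)

include L

theorem NN_sub : NN P Z Y α ⊆ H (P.Θ α) := by
  rintro _ ⟨w, -, rfl⟩
  exact ev_mem L.ok α w

theorem mem_NN {f : Ordinal.{u} → ZFSet.{u}} (h : seq P.κ.ord f ∈ Y)
    (hf : ∀ ξ, f ξ ∈ H (P.Θ ξ)) : f α ∈ NN P Z Y α :=
  ⟨seq P.κ.ord f, ⟨h, L.zok.seqH f fun ξ _ => hf ξ⟩, ev_seq L.αK (hf α)⟩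

theorem elemN : Elem (NN P Z Y α) (H (P.Θ α)) := by
  refine elem_of L.NN_sub ?_
  intro φ i v hv h
  choose w hw hw' using hv
  have h1 : enc w (vb φ) ∈ Y ∧ enc w (vb φ) ∈ Z := by
    have := enc_mem (Y := {w | w ∈ Y ∧ w ∈ Z}) ⟨L.empty_mem, L.empty_Z⟩
      (fun a ha b hb => ⟨L.Ypair a ha.1 b hb.1, L.zok.pair a ha.2 b hb.2⟩) (vb φ) w hw
    exact this
  have h2 := L.Yg (.sk φ i) _ h1.1 h1.2
  have h3 : skVal P φ i (enc w (vb φ)) α ∈ NN P Z Y α :=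
    L.mem_NN h2 fun ξ => skVal_mem L.ok φ i _ ξ
  have h4 : ∀ a, Sat (H (P.Θ α)) φ (Function.update v i a) ↔
      Sat (H (P.Θ α)) φ (Function.update (fun n => ev P α (nth (enc w (vb φ)) n)) i a) := by
    intro a
    refine sat_congr φ fun n hn => ?_
    by_cases hni : n = i
    · subst hni; simp
    · rw [Function.update_of_ne hni, Function.update_of_ne hni, nth_enc _ _ _ hn]
      exact (hw' n).symm
  refine ⟨_, h3, (h4 _).2 (skVal_spec ?_)⟩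
  obtain ⟨a, ha, h5⟩ := h
  exact ⟨a, ha, (h4 a).1 h5⟩

theorem cut_mem {R : ZFSet.{u}} (hR : R ∈ Y) (hR' : R ⊆ P.κ.ord.toZFSet) :
    R ∩ α.toZFSet ∈ NN P Z Y α := by
  have h1 := L.Yg .cut R hR (L.zok.sub _ hR')
  exact L.mem_NN (f := fun ξ => R ∩ ξ.toZFSet) h1 fun ξ => sub_mem L.ok (inter_sub _ _)

theorem ordN {β : Ordinal.{u}} (hβ : β ≤ α) : β.toZFSet ∈ NN P Z Y α := by
  rcases hβ.eq_or_lt with rfl | h
  · have h1 := L.cut_mem L.YK (fun _ h => h)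
    have h2 : P.κ.ord.toZFSet ∩ β.toZFSet = β.toZFSet :=
      inter_eq_right_of_subset (toZFSet_subset_toZFSet_iff.2 L.αK.le)
    rwa [h2] at h1
  · have h1 := L.cut_mem (L.Yord β h) (toZFSet_subset_toZFSet_iff.2 (h.trans L.αK).le)
    have h2 : β.toZFSet ∩ α.toZFSet = β.toZFSet :=
      inter_eq_left_of_subset (toZFSet_subset_toZFSet_iff.2 h.le)
    rwa [h2] at h1

theorem surj {a : ZFSet.{u}} (ha : a ∈ NN P Z Y α) (ha' : a ⊆ α.toZFSet) :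
    ∃ R ∈ Y, R ⊆ P.κ.ord.toZFSet ∧ a = R ∩ α.toZFSet := by
  obtain ⟨w, ⟨hw, hw'⟩, rfl⟩ := ha
  obtain ⟨R, hR, hR', h⟩ := L.exists_lift hw hw'
  refine ⟨R, hR, hR', ?_⟩
  rw [eq_iff ha' (inter_sub _ _)]
  intro ν hν
  rw [mem_inter, toZFSet_mem_toZFSet_iff]
  constructor
  · intro h1
    exact ⟨(h ν hν).2 h1, hν⟩
  · intro h1
    exact (h ν hν).1 h1.1

theorem X_mem : P.X α ∈ NN P Z Y α :=
  L.mem_NN (L.Yg .X ∅ L.empty_mem L.empty_Z) L.ok.XH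

/-- `α` is a regular cardinal. -/
theorem regular : ∃ a : Cardinal.{u}, a.IsRegular ∧ a.ord = α := by
  by_contra hn
  obtain ⟨h1, h2, h3⟩ := L.hη hn
  have h4 := L.Yg .cof ∅ L.empty_mem L.empty_Z
  simp only [g] at h4
  have h5 : ∀ ξ, cofVal P ξ ∈ H (P.Θ ξ) := fun ξ => sub_mem L.ok ords_subset
  obtain ⟨R, hR, hR', h6⟩ := L.exists_lift h4 (L.zok.seqH _ fun ξ _ => h5 ξ)
  rw [ev_seq L.αK (h5 α)] at h6
  have h7 := L.Yg .bnd (pair R (P.η α).toZFSet) (L.Ypair _ hR _ (L.Yord _ h1))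
    (L.zok.pair _ (L.zok.sub _ hR') _ (L.ord_Z (h1.trans L.αK).le))
  simp only [g, fst_pair, snd_pair, rank_toZFSet] at h7
  have hmem : ∀ i < P.η α, (P.p i (P.c α i)).toZFSet ∈ R := by
    intro i hi
    have h8 := L.Yp i (hi.trans h1) _ (h2 i hi)
    rw [h6 _ h8, cofVal, toZFSet_mem_ords]
    exact ⟨h8, i, hi, rfl⟩
  have hinner : ∀ i < P.η α, innerVal P R i = P.c α i := by
    intro i hi
    have hm : P.c α i ∈ {ζ | ζ < P.κ.ord ∧ (P.p i ζ).toZFSet ∈ R} :=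
      ⟨(h2 i hi).trans L.αK, hmem i hi⟩
    have hle : innerVal P R i ≤ P.c α i := csInf_le' hm
    have hm' : innerVal P R i ∈ {ζ | ζ < P.κ.ord ∧ (P.p i ζ).toZFSet ∈ R} := csInf_mem ⟨_, hm⟩
    have hlt : innerVal P R i < α := hle.trans_lt (h2 i hi)
    have h9 := (h6 _ (L.Yp i (hi.trans h1) _ hlt)).1 hm'.2
    rw [cofVal, toZFSet_mem_ords] at h9
    obtain ⟨-, i', hi', h10⟩ := h9
    obtain ⟨h11, h12⟩ := L.ok.pinj i ((hi.trans h1).trans L.αK) _ (hlt.trans L.αK) i'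
      ((hi'.trans h1).trans L.αK) _ ((h2 i' hi').trans L.αK) h10
    rw [h12, h11]
  set S := {b : Ordinal.{u} | ∀ i < P.η α, innerVal P R i < b} with hS
  obtain ⟨b, hb, hb'⟩ : ∃ b < P.κ.ord, b ∈ S :=
    ⟨α, L.αK, fun i hi => by rw [hinner i hi]; exact h2 i hi⟩
  have hmS : sInf S ∈ S := csInf_mem ⟨b, hb'⟩
  have hlt : sInf S < α := L.Yrank _ ((csInf_le' hb').trans_lt hb) h7
  obtain ⟨i, hi, h8⟩ := h3 _ hlt
  have h9 := hmS i hi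
  rw [hinner i hi] at h9
  exact absurd h9 (not_lt.2 h8)

end Loc

end Pool.Agent.X177.RL
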