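import Pool.Agent.X177.RL.Loc

set_option autoImplicit false

namespace Pool.Agent.X177.RL

open Cardinal Ordinal ZFSet

universe u

namespace Loc

variable {P : Par.{u}} {Z : ZFSet.{u}} {θ : Cardinal.{u}} {M U Y : Set ZFSet.{u}}
  {α : Ordinal.{u}} (L : Loc P Z θ M U Y α)

include L

theorem UU_iff {R : ZFSet.{u}} (hR : R ∈ Y) (hR' : R ⊆ P.κ.ord.toZFSet) :
    R ∩ α.toZFSet ∈ UU U Y α ↔ R ∈ U := by
  constructor
  · rintro ⟨R', h1, h2, h3⟩
    exact L.mono h1 hR hR' (by rw [h3]) h2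
  · intro h
    exact ⟨R, hR, h, rfl⟩

/-- The lift of a sequence at `α`. -/
theorem exists_seq {A : Ordinal.{u} → ZFSet.{u}} (hA : seq α A ∈ NN P Z Y α)
    (hA' : ∀ β < α, A β ⊆ α.toZFSet) :
    ∃ A' : Ordinal.{u} → ZFSet.{u}, seq P.κ.ord A' ∈ Y ∧ seq P.κ.ord A' ∈ Z ∧
      (∀ β < P.κ.ord, A' β ⊆ P.κ.ord.toZFSet) ∧ ∀ β < α, A' β ∩ α.toZFSet = A β := by
  obtain ⟨w, ⟨hw, hw'⟩, hwA⟩ := hA
  have hwA' : ev P α w = seq α A := hwA
  have h1 := L.Yg .code w hw hw'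
  simp only [g] at h1
  have h2 : ∀ ξ, codeVal P w ξ ∈ H (P.Θ ξ) := fun ξ => sub_mem L.ok ords_subset
  obtain ⟨R, hR, hR', h3⟩ := L.exists_lift h1 (L.zok.seqH _ fun ξ _ => h2 ξ)
  rw [ev_seq L.αK (h2 α)] at h3
  have h4 := L.Yg .dec R hR (L.zok.sub _ hR')
  simp only [g] at h4
  have h5 : ∀ β < P.κ.ord, decVal P R β ⊆ P.κ.ord.toZFSet := fun β _ => ords_subset
  refine ⟨decVal P R, h4, L.zok.seqS _ h5, h5, ?_⟩
  intro β hβ
  rw [eq_iff (inter_sub _ _) (hA' β hβ)]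
  intro ζ hζ
  rw [mem_inter, toZFSet_mem_toZFSet_iff, decVal, toZFSet_mem_ords]
  have hp := L.Yp β hβ ζ hζ
  rw [h3 _ hp, codeVal, toZFSet_mem_ords, hwA']
  constructor
  · rintro ⟨⟨-, -, η', hη', ζ', hζ', h6, h7⟩, -⟩
    obtain ⟨e1, e2⟩ := L.ok.pinj β (hβ.trans L.αK) ζ (hζ.trans L.αK) η' (hη'.trans L.αK) ζ'
      (hζ'.trans L.αK) h6
    rw [← e1, ← e2, app_seq hβ] at h7
    exact h7
  · intro h
    refine ⟨⟨hζ.trans L.αK, hp, β, hβ, ζ, hζ, rfl, ?_⟩, hζ⟩
    rw [app_seq hβ]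
    exact h

theorem cardN {a : Cardinal.{u}} (ha' : a.ord = α) :
    #(NN P Z Y α) = Cardinal.lift.{u + 1} a := by
  have hac : α.card = a := by rw [← ha', card_ord]
  apply le_antisymm
  · refine mk_image_le.trans ?_
    refine (mk_le_mk_of_subset (t := Y) fun w h => h.1).trans ?_
    have := L.Ycard
    rwa [hac] at this
  · have h1 : (Ordinal.toZFSet '' Set.Iio α) ⊆ NN P Z Y α := by
      rintro _ ⟨β, hβ, rfl⟩
      exact L.ordN (le_of_lt hβ)
    have h2 := mk_le_mk_of_subset h1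
    rw [mk_image_eq toZFSet_injective, Cardinal.mk_Iio_ordinal, hac] at h2
    exact h2

theorem uniformN {a : Cardinal.{u}} (ha : a.IsRegular) (ha' : a.ord = α) {R : ZFSet.{u}}
    (hR : R ∈ Y) (hU : R ∈ U) : (R ∩ α.toZFSet).card = a := by
  have hac : α.card = a := by rw [← ha', card_ord]
  have hR' := (L.good.sub R hU).2
  apply le_antisymm
  · refine (card_mono (inter_sub _ _)).trans ?_
    rw [card_toZFSet, hac]
  · by_contra hlt
    push Not at hlt
    set s : Set Ordinal.{u} := ZFSet.rank '' {z | z ∈ R ∩ α.toZFSet} with hs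
    have h1 : #s < Cardinal.lift.{u + 1} a := by
      refine mk_image_le.trans_lt ?_
      have h2 : #{z | z ∈ R ∩ α.toZFSet} = Cardinal.lift.{u + 1} (R ∩ α.toZFSet).card :=
        cardinalMk_coe_sort
      rw [h2, Cardinal.lift_lt]
      exact hlt
    obtain ⟨b, hb, hb'⟩ := exists_bound ha h1 (by
      rintro _ ⟨z, hz, rfl⟩
      obtain ⟨β, hβ, rfl⟩ := mem_toZFSet_iff.1 (mem_inter.1 hz).2
      rw [rank_toZFSet, ha']
      exact hβ)
    rw [ha'] at hb
    -- `R` has an element above `b`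
    have h3 : ∃ β < P.κ.ord, β.toZFSet ∈ R ∧ b ≤ β := by
      by_contra hn
      push Not at hn
      have h4 : R ⊆ b.toZFSet := by
        intro z hz
        obtain ⟨β, hβ, rfl⟩ := mem_toZFSet_iff.1 (hR' hz)
        exact toZFSet_mem_toZFSet_iff.2 (hn β hβ hz)
      have h5 := card_mono h4
      rw [L.good.uniform R hU, card_toZFSet] at h5
      have h6 : b.card < P.κ := (Cardinal.lt_ord).1 (hb.trans L.αK)
      exact absurd h6 (not_lt.2 h5)
    obtain ⟨β, hβ, h4, h5⟩ := L.exists_nxt hR hR' hb h3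
    have h6 := hb' β ⟨β.toZFSet, mem_inter.2 ⟨h4, toZFSet_mem_toZFSet_iff.2 hβ⟩,
      rank_toZFSet β⟩
    exact absurd h6 (not_lt.2 h5)

theorem goodN {a : Cardinal.{u}} (ha : a.IsRegular) (ha' : a.ord = α) :
    Good a (P.Θ α) (NN P Z Y α) (UU U Y α) where
  elem := L.elemN
  card := L.cardN ha'
  ord := by
    rw [ha']
    intro β hβ
    exact L.ordN hβ
  sub := by
    rintro A ⟨R, hR, hU, rfl⟩
    rw [ha']
    exact ⟨L.cut_mem hR (L.good.sub R hU).2, inter_sub _ _⟩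
  univ := by
    rw [ha']
    refine ⟨P.κ.ord.toZFSet, L.YK, L.good.univ, ?_⟩
    exact (inter_eq_right_of_subset (toZFSet_subset_toZFSet_iff.2 L.αK.le)).symm
  empty := by
    rintro ⟨R, hR, hU, h⟩
    have h1 := L.mono (R' := ∅) hR L.empty_mem (empty_subset _) (by rw [← h]; exact empty_subset _) hU
    exact L.good.empty h1
  inter := by
    rintro _ ⟨R, hR, hU, rfl⟩ _ ⟨R', hR', hU', rfl⟩
    have h1 := (L.good.sub R hU).2
    have h2 := (L.good.sub R' hU').2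
    have h3 : R \ (R \ R') = R ∩ R' := by
      ext z
      simp only [mem_sdiff, mem_inter]
      tauto
    have h4 : R ∩ R' ∈ Y := by
      rw [← h3]
      exact L.diff_mem hR (L.diff_mem hR hR' h1 h2) h1 fun z hz => h1 (mem_sdiff.1 hz).1
    refine ⟨R ∩ R', h4, L.good.inter R hU R' hU', ?_⟩
    ext z
    simp only [mem_inter]
    tauto
  up := by
    rintro _ ⟨R, hR, hU, rfl⟩ B hB h1 h2
    rw [ha'] at h2
    obtain ⟨R', hR', h3, rfl⟩ := L.surj hB h2
    exact (L.UU_iff hR' h3).2 (L.mono hR hR' h3 h1 hU)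
  compl := by
    intro A hA h1
    rw [ha'] at h1 ⊢
    obtain ⟨R, hR, h3, rfl⟩ := L.surj hA h1
    rcases L.good.compl R (L.YM hR) h3 with h4 | h4
    · exact Or.inl ⟨R, hR, h4, rfl⟩
    · right
      refine ⟨_, L.diff_mem L.YK hR (fun _ h => h) h3, h4, ?_⟩
      ext z
      simp only [mem_sdiff, mem_inter]
      have h5 : z ∈ α.toZFSet → z ∈ P.κ.ord.toZFSet := fun h =>
        (toZFSet_subset_toZFSet_iff.2 L.αK.le) h
      tauto
  uniform := by
    rintro _ ⟨R, hR, hU, rfl⟩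
    exact L.uniformN ha ha' hR hU
  amenable := by
    intro A hA hs
    rw [ha'] at hA hs ⊢
    obtain ⟨A', h1, h2, h3, h4⟩ := L.exists_seq hs hA
    have h5 : amen P.κ U (seq P.κ.ord A') ∈ M := by
      rw [amen_seq]
      exact L.good.amenable _ h3 (L.YM h1)
    have h6 := L.Yamen _ h1 h5
    rw [amen_seq] at h6
    have h7 := L.cut_mem h6 ords_subset
    have h8 : ords P.κ.ord (fun β => A' β ∈ U) ∩ α.toZFSet = ords α fun β => A β ∈ UU U Y α := by
      rw [eq_iff (inter_sub _ _) ords_subset]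
      intro β hβ
      rw [mem_inter, toZFSet_mem_toZFSet_iff, toZFSet_mem_ords, toZFSet_mem_ords, ← h4 β hβ,
        L.UU_iff (L.seq_val h1 hβ) (h3 β (hβ.trans L.αK))]
      exact ⟨fun h => ⟨hβ, h.1.2⟩, fun h => ⟨⟨hβ.trans L.αK, h.2⟩, hβ⟩⟩
    rwa [h8] at h7
  normal := by
    classical
    intro A hA hs
    rw [ha'] at hA hs
    have hA' : ∀ β < α, A β ⊆ α.toZFSet := by
      intro β hβ
      obtain ⟨R, -, -, h⟩ := hA β hβ
      rw [h]
      exact inter_sub _ _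
    obtain ⟨A', h1, h2, h3, h4⟩ := L.exists_seq hs hA'
    have h5 : amen P.κ U (seq P.κ.ord A') ∈ M := by
      rw [amen_seq]
      exact L.good.amenable _ h3 (L.YM h1)
    have h6 := L.Yamen _ h1 h5
    rw [amen_seq] at h6
    set R := ords P.κ.ord (fun β => A' β ∈ U) with hR
    have h7 := L.Yg .mix (pair (seq P.κ.ord A') R) (L.Ypair _ h1 _ h6)
      (L.zok.pair _ h2 _ (L.zok.sub _ ords_subset))
    simp only [g, fst_pair, snd_pair] at h7
    set A'' : Ordinal.{u} → ZFSet.{u} := mixVal P (seq P.κ.ord A') R with hA''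
    have h8 : ∀ β < P.κ.ord, A'' β = if A' β ∈ U then A' β else P.κ.ord.toZFSet := by
      intro β hβ
      rw [hA'', mixVal, hR, toZFSet_mem_ords, app_seq hβ]
      simp only [hβ, true_and]
    have h9 : ∀ β < P.κ.ord, A'' β ∈ U := by
      intro β hβ
      rw [h8 β hβ]
      split_ifs with h
      · exact h
      · exact L.good.univ
    have h10 := L.good.normal A'' h9 (L.YM h7)
    have h11 := L.Yg .diag (seq P.κ.ord A'') h7
      (L.zok.seqS _ fun β hβ => (L.good.sub _ (h9 β hβ)).2)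
    have h12 : g P .diag (seq P.κ.ord A'') = diag P.κ A'' := by
      simp only [g, diag]
      refine ords_congr fun β hβ => ?_
      refine forall₂_congr fun γ hγ => ?_
      rw [app_seq (hγ.trans hβ)]
    rw [h12] at h11
    refine ⟨_, h11, h10, ?_⟩
    rw [diag, diag, ha', eq_iff ords_subset (inter_sub _ _)]
    intro β hβ
    rw [mem_inter, toZFSet_mem_toZFSet_iff, toZFSet_mem_ords, toZFSet_mem_ords]
    have h13 : (∀ γ < β, β.toZFSet ∈ A γ) ↔ ∀ γ < β, β.toZFSet ∈ A'' γ := by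
      refine forall₂_congr fun γ hγ => ?_
      have hγα := hγ.trans hβ
      have h14 : A' γ ∈ U := by
        have h15 := hA γ hγα
        rw [← h4 γ hγα] at h15
        exact (L.UU_iff (L.seq_val h1 hγα) (h3 γ (hγα.trans L.αK))).1 h15
      rw [h8 γ (hγα.trans L.αK), if_pos h14, ← h4 γ hγα, mem_inter, toZFSet_mem_toZFSet_iff]
      exact ⟨fun h => h.1, fun h => ⟨h, hβ⟩⟩
    rw [h13]
    exact ⟨fun h => ⟨⟨hβ.trans L.αK, h.2⟩, hβ⟩, fun h => ⟨hβ, h.1.2⟩⟩

theorem ccN (h : ∃ a : Cardinal.{u}, a.IsRegular ∧ ℵ₀ < a ∧ a.ord = α) (a : Cardinal.{u}) :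
    CC a (UU U Y α) := by
  intro A hA
  choose R hR hU hAR using hA
  obtain ⟨β, hβ, h1⟩ := L.cofinal R (fun n => ⟨hR n, hU n⟩) h
  refine ⟨β.toZFSet, fun n => ?_⟩
  rw [hAR, mem_inter, toZFSet_mem_toZFSet_iff]
  exact ⟨h1 n, hβ⟩

/-- The conclusion at `α`. -/
theorem result : ∃ a : Cardinal.{u}, a.ord = α ∧ a.IsRegular ∧ ℵ₀ < a ∧
    ∃ N V : Set ZFSet.{u}, Good a (P.Θ α) N V ∧ P.X α ∈ N ∧ CC a V := by
  obtain ⟨a, ha, ha'⟩ := L.regular
  have h1 : ℵ₀ < a := by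
    rw [← ord_lt_ord, ord_aleph0, ha']
    exact L.ωα
  exact ⟨a, ha', ha, h1, _, _, L.goodN ha ha', L.X_mem, L.ccN ⟨a, ha, h1, ha'⟩ a⟩

end Loc

end Pool.Agent.X177.RL
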