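import Pool.Agent.X177.RL.Loc2

set_option autoImplicit false

namespace Pool.Agent.X177.RL

open Cardinal Ordinal ZFSet

universe u

/-- Models which are closed under countably many operations. -/
theorem exists_model {Ψ : Cardinal.{u} → Set ZFSet.{u} → Prop} {κ : Cardinal.{u}}
    (h : Ramsey Ψ κ) {ι : Type} [Countable ι] (G : ι → ZFSet.{u} → ZFSet.{u}) (Z : ZFSet.{u}) :
    ∃ (θ : Cardinal.{u}) (M U : Set ZFSet.{u}), ℵ₀ ≤ θ ∧ Good κ θ M U ∧ Ψ κ U ∧
      ∀ (o : ι), ∀ z ∈ M, z ∈ Z → G o z ∈ M := by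
  obtain ⟨code, hcode⟩ := exists_injective_nat ι
  let O : ZFSet.{u} := ZFSet.range fun q : ι × Z =>
    pair (pair (Ordinal.toZFSet (code q.1 : Ordinal.{u})) q.2.1) (G q.1 q.2.1)
  have hO : ∀ a y, pair a y ∈ O ↔ ∃ (o : ι) (z : ZFSet.{u}), z ∈ Z ∧
      pair (Ordinal.toZFSet (code o : Ordinal.{u})) z = a ∧ G o z = y := by
    intro a y
    simp only [O, ZFSet.mem_range]
    constructor
    · rintro ⟨⟨o, ⟨z, hz⟩⟩, hq⟩
      rw [pair_inj] at hq
      exact ⟨o, z, hz, hq.1, hq.2⟩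
    · rintro ⟨o, z, hz, rfl, rfl⟩
      exact ⟨⟨o, ⟨z, hz⟩⟩, rfl⟩
  have hfn : Fn O := by
    intro a y y' h1 h2
    obtain ⟨o, z, -, h3, rfl⟩ := (hO a y).1 h1
    obtain ⟨o', z', -, h3', rfl⟩ := (hO a y').1 h2
    rw [← h3', pair_inj] at h3
    have h4 : o = o' := by
      apply hcode
      have := toZFSet_injective h3.1
      exact_mod_cast this
    rw [h4, h3.2]
  set t : ZFSet.{u} := V_ (Order.succ (rank O)) with ht
  set θ : Cardinal.{u} := Order.succ (max (max t.card κ) ℵ₀) with hθ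
  have hθ0 : ℵ₀ ≤ θ := (le_max_right _ _).trans (Order.le_succ _)
  have hθreg : θ.IsRegular := isRegular_succ (le_max_right _ _)
  have hκθ : κ < θ := Order.lt_succ_of_le ((le_max_right _ _).trans (le_max_left _ _))
  have hOH : O ∈ H θ := ⟨t, isTransitive_vonNeumann _, mem_vonNeumann_succ O,
    Order.lt_succ_of_le ((le_max_left _ _).trans (le_max_left _ _))⟩
  obtain ⟨M, U, hgood, hOM, hΨ⟩ := h.2.2 θ hθreg hκθ O hOH
  refine ⟨θ, M, U, hθ0, hgood, hΨ, ?_⟩
  intro o z hz hzZ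
  have h1 : Ordinal.toZFSet (code o : Ordinal.{u}) ∈ M := by
    refine hgood.ord _ ?_
    have h2 : (code o : Ordinal.{u}) < ω := natCast_lt_omega0 _
    have h3 : ω ≤ κ.ord := by
      rw [← ord_aleph0, ord_le_ord]
      exact h.1.aleph0_le
    exact h2.le.trans h3
  exact Elem.app_mem hθ0 hgood.elem hOM (hgood.elem.pair hθ0 h1 hz) hfn
    ((hO _ _).2 ⟨o, z, hzZ, rfl, rfl⟩)

theorem exists_pairing {κ : Cardinal.{u}} (hκ : ℵ₀ ≤ κ) :
    ∃ p : Ordinal.{u} → Ordinal.{u} → Ordinal.{u},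
      (∀ i < κ.ord, ∀ j < κ.ord, p i j < κ.ord) ∧
      ∀ i < κ.ord, ∀ j < κ.ord, ∀ i' < κ.ord, ∀ j' < κ.ord, p i j = p i' j' → i = i' ∧ j = j' := by
  classical
  have h1 : #(Set.Iio κ.ord × Set.Iio κ.ord) = #(Set.Iio κ.ord) := by
    rw [mk_prod, Cardinal.lift_id, Cardinal.mk_Iio_ordinal, card_ord]
    exact Cardinal.mul_eq_self (by simpa using hκ)
  obtain ⟨E⟩ := Cardinal.eq.1 h1
  refine ⟨fun i j => if h : i < κ.ord ∧ j < κ.ord then (E (⟨i, h.1⟩, ⟨j, h.2⟩)).1 else 0, ?_, ?_⟩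
  · intro i hi j hj
    simp only [dif_pos (And.intro hi hj)]
    exact (E _).2
  · intro i hi j hj i' hi' j' hj' h
    simp only [dif_pos (And.intro hi hj), dif_pos (And.intro hi' hj')] at h
    have h2 := E.injective (Subtype.ext h)
    rw [Prod.mk.injEq] at h2
    exact ⟨congrArg Subtype.val h2.1, congrArg Subtype.val h2.2⟩

/-- The indices of the closure conditions. -/
inductive J : Type
  | op (o : Op) : J
  | pr | ap | am | od | rk | ja | pp | gm | kk : J
  deriving Countable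

theorem exists_small {κ : Cardinal.{u}} (hκ : Ramsey Normal κ) {γ : Ordinal.{u}}
    (hγ : γ < κ.ord) : ∃ a : Cardinal.{u}, γ < a.ord ∧ a < κ ∧ Ramsey CC a := by
  classical
  by_contra hbad
  push Not at hbad
  have hreg := hκ.1
  have hunc := hκ.2.1
  have hω : ω < κ.ord := by
    rw [← ord_aleph0, ord_lt_ord]
    exact hunc
  -- the choice of the parameters
  have hch : ∀ ξ : Ordinal.{u}, ∃ (θ : Cardinal.{u}) (x : ZFSet.{u}), ℵ₀ ≤ θ ∧ ξ.card < θ ∧
      x ∈ H θ ∧ ∀ a : Cardinal.{u}, a.ord = ξ → a.IsRegular → ℵ₀ < a → γ < ξ → ξ < κ.ord →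
        ∀ N V : Set ZFSet.{u}, Good a θ N V → x ∈ N → ¬ CC a V := by
    intro ξ
    by_cases hξ : ∃ a : Cardinal.{u}, a.ord = ξ ∧ a.IsRegular ∧ ℵ₀ < a ∧ γ < ξ ∧ ξ < κ.ord
    · obtain ⟨a, rfl, h1, h2, h3, h4⟩ := hξ
      have h5 := hbad a h3 (ord_lt_ord.1 h4)
      rw [Ramsey] at h5
      push Not at h5
      obtain ⟨θ, hθ, haθ, h6⟩ := h5 h1 h2
      rw [RamseyAt] at h6
      push Not at h6
      obtain ⟨x, hx, h7⟩ := h6
      refine ⟨θ, x, hθ.aleph0_le, by rwa [card_ord], hx, ?_⟩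
      intro b hb _ _ _ _ N V hg hxN
      rw [ord_injective hb] at hg
      exact h7 N V hg hxN
    · refine ⟨Order.succ (max ξ.card ℵ₀), ∅, (le_max_right _ _).trans (Order.le_succ _),
        Order.lt_succ_of_le (le_max_left _ _), empty_mem_H ((le_max_right _ _).trans
          (Order.le_succ _)), ?_⟩
      intro a h1 h2 h3 h4 h5
      exact absurd ⟨a, h1, h2, h3, h4, h5⟩ hξ
  choose Θ X hΘ1 hΘ2 hX hbad' using hch
  obtain ⟨p, hpK, hpinj⟩ := exists_pairing hreg.aleph0_le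
  have hcof : ∀ ξ : Ordinal.{u}, ∃ (η : Ordinal.{u}) (c : Ordinal.{u} → Ordinal.{u}), ω ≤ ξ →
      (¬ ∃ a : Cardinal.{u}, a.IsRegular ∧ a.ord = ξ) →
      η < ξ ∧ (∀ i < η, c i < ξ) ∧ ∀ ζ < ξ, ∃ i < η, ζ ≤ c i := by
    intro ξ
    by_cases h : ω ≤ ξ ∧ ¬ ∃ a : Cardinal.{u}, a.IsRegular ∧ a.ord = ξ
    · obtain ⟨η, h1, c, h2, h3⟩ := exists_cofinal h.1 h.2
      exact ⟨η, c, fun _ _ => ⟨h1, h2, h3⟩⟩
    · exact ⟨0, fun _ => 0, fun h1 h2 => absurd ⟨h1, h2⟩ h⟩
  choose η c hηc using hcof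
  let P : Par.{u} := ⟨κ, Θ, X, p, η, c⟩
  have hP : P.Ok := ⟨hreg, hunc, hΘ1, hΘ2, hX, hpK, hpinj⟩
  obtain ⟨Z, hZ⟩ := exists_Z P
  obtain ⟨θ, M, U, hθ0, hgood, ⟨A, hA, hstat⟩, hMg⟩ := exists_model hκ (g P) Z
  -- the enumeration of `M`
  have hcard : #(Set.Iio κ.ord) = #M := by
    rw [Cardinal.mk_Iio_ordinal, card_ord, hgood.card]
  obtain ⟨E⟩ := Cardinal.eq.1 hcard
  let e : Ordinal.{u} → ZFSet.{u} := fun i => if h : i < κ.ord then (E ⟨i, h⟩).1 else ∅
  let idx : ZFSet.{u} → Ordinal.{u} := fun z => if h : z ∈ M then (E.symm ⟨z, h⟩).1 else 0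
  have he : ∀ i < κ.ord, e i ∈ M := by
    intro i hi
    simp only [e, dif_pos hi]
    exact (E _).2
  have hκ0 : 0 < κ.ord := hreg.ord_pos
  have hidx : ∀ z, idx z < κ.ord := by
    intro z
    by_cases h : z ∈ M
    · simp only [idx, dif_pos h]
      exact (E.symm _).2
    · simp only [idx, dif_neg h]
      exact hκ0
  have heidx : ∀ z ∈ M, e (idx z) = z := by
    intro z hz
    have h1 : (E.symm ⟨z, hz⟩).1 < κ.ord := (E.symm _).2
    have h2 : e (idx z) = (E ⟨(E.symm ⟨z, hz⟩).1, h1⟩).1 := by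
      simp only [idx, dif_pos hz, e, dif_pos h1]
    rw [h2]
    exact congrArg Subtype.val (E.apply_symm_apply ⟨z, hz⟩)
  have hjA : ∀ B, ∃ β, B ∈ U → β < κ.ord ∧ A β = B := by
    intro B
    by_cases h : B ∈ U
    · obtain ⟨β, h1, h2⟩ := (hA B).1 h
      exact ⟨β, fun _ => ⟨h1, h2⟩⟩
    · exact ⟨0, fun h' => absurd h' h⟩
  choose jA hjA using hjA
  let val : Ordinal.{u} → Ordinal.{u} → J → Ordinal.{u} := fun i j q =>
    match q with
    | .op o => idx (g P o (e i))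
    | .pr => idx (pair (e i) (e j))
    | .ap => idx (app (e i) j.toZFSet)
    | .am => idx (amen κ U (e i))
    | .od => idx i.toZFSet
    | .rk => if e i ∈ κ.ord.toZFSet then rank (e i) else 0
    | .ja => if e i ∈ U then jA (e i) else 0
    | .pp => p i j
    | .gm => max γ ω
    | .kk => idx κ.ord.toZFSet
  have hval : ∀ i < κ.ord, ∀ j < κ.ord, ∀ q, val i j q < κ.ord := by
    intro i hi j hj q
    cases q with
    | op o => exact hidx _
    | pr => exact hidx _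
    | ap => exact hidx _
    | am => exact hidx _
    | od => exact hidx _
    | rk =>
      show (if e i ∈ κ.ord.toZFSet then rank (e i) else 0) < κ.ord
      split_ifs with h
      · obtain ⟨β, hβ, h1⟩ := mem_toZFSet_iff.1 h
        rw [← h1, rank_toZFSet]
        exact hβ
      · exact hκ0
    | ja =>
      show (if e i ∈ U then jA (e i) else 0) < κ.ord
      split_ifs with h
      · exact (hjA _ h).1
      · exact hκ0
    | pp => exact hpK i hi j hj
    | gm => exact max_lt hγ hω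
    | kk => exact hidx _
  have hν : ∀ i j, ∃ b, i < κ.ord → j < κ.ord → b < κ.ord ∧ ∀ q, val i j q < b := by
    intro i j
    by_cases h : i < κ.ord ∧ j < κ.ord
    · have hs : #(Set.range (val i j)) < Cardinal.lift.{u + 1} κ := by
        refine lt_of_le_of_lt (b := ℵ₀) ?_ (by simpa using hunc)
        exact Cardinal.mk_le_aleph0_iff.2 (Set.countable_range _).to_subtype
      obtain ⟨b, hb, hb'⟩ := exists_bound hreg hs (by
        rintro _ ⟨q, rfl⟩
        exact hval i h.1 j h.2 q)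
      exact ⟨b, fun _ _ => ⟨hb, fun q => hb' _ ⟨q, rfl⟩⟩⟩
    · exact ⟨0, fun h1 h2 => absurd ⟨h1, h2⟩ h⟩
  choose ν hν using hν
  set S : Set Ordinal.{u} := {β | ∀ γ < β, β.toZFSet ∈ A γ} with hS
  let Cl : Ordinal.{u} → Prop := fun δ => δ < κ.ord ∧ δ ≠ 0 ∧ ∀ i < δ, ∀ j < δ, ν i j < δ
  -- generic points
  have hgen : ∀ β ∈ S, Cl β → ∀ i < β, e i ∈ U → β.toZFSet ∈ e i := by
    intro β hβ hcl i hi hU
    have h1 := (hν i i (hi.trans hcl.1) (hi.trans hcl.1)).2 .ja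
    have h2 : val i i .ja = jA (e i) := if_pos hU
    rw [h2] at h1
    have h3 := hβ _ (h1.trans (hcl.2.2 i hi i hi))
    rwa [(hjA _ hU).2] at h3
  have hT : ∀ δ, ∃ β, δ < κ.ord → β ∈ S ∧ Cl β ∧ δ < β := by
    intro δ
    by_cases hδ : δ < κ.ord
    · have hcl := isClub_closure hreg hunc (fun i j => max (ν i j) (Order.succ δ)) (by
        intro i hi j hj
        exact max_lt (hν i j hi hj).1 ((ord_isSuccLimit hreg).succ_lt hδ))
      obtain ⟨β, ⟨h1, h2, h3⟩, h4⟩ := hstat _ hcl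
      have h0 : 0 < β := pos_iff_ne_zero.2 h2
      refine ⟨β, fun _ => ⟨h4, ⟨h1, h2, fun i hi j hj => ?_⟩, ?_⟩⟩
      · exact (le_max_left _ _).trans_lt (h3 i hi j hj)
      · exact (Order.lt_succ δ).trans ((le_max_right _ _).trans_lt (h3 0 h0 0 h0))
    · exact ⟨0, fun h => absurd h hδ⟩
  choose nT hnT using hT
  have hcl2 := isClub_closure hreg hunc (fun i j => max (ν i j) (nT i)) (by
    intro i hi j hj
    exact max_lt (hν i j hi hj).1 (hnT i hi).2.1.1)
  obtain ⟨α, ⟨hακ, hα0, hα⟩, hαS⟩ := hstat _ hcl2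
  have hCl : Cl α := ⟨hακ, hα0, fun i hi j hj => (le_max_left _ _).trans_lt (hα i hi j hj)⟩
  have hvα : ∀ i < α, ∀ j < α, ∀ q, val i j q < α := fun i hi j hj q =>
    ((hν i j (hi.trans hακ) (hj.trans hακ)).2 q).trans (hCl.2.2 i hi j hj)
  have h0α : 0 < α := pos_iff_ne_zero.2 hα0
  have hγα : max γ ω < α := hvα 0 h0α 0 h0α .gm
  let Y : Set ZFSet.{u} := e '' Set.Iio α
  have hY : ∀ z ∈ M, idx z < α → z ∈ Y := fun z hz h => ⟨idx z, h, heidx z hz⟩
  have hYM : Y ⊆ M := by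
    rintro _ ⟨i, hi, rfl⟩
    exact he i (lt_trans hi hακ)
  have hMpair : ∀ a ∈ M, ∀ b ∈ M, pair a b ∈ M := fun a ha b hb =>
    hgood.elem.pair hθ0 ha hb
  have L : Loc P Z θ M U Y α :=
    { ok := hP
      zok := hZ
      good := hgood
      Mg := hMg
      Mpair := hMpair
      Mapp := fun B hB β hβ => Elem.app_mem hθ0 hgood.elem hB (hgood.ord β hβ.le) (fn_seq _ _)
        (pair_mem_seq.2 ⟨β, hβ, rfl, rfl⟩)
      αK := hακ
      ωα := (le_max_right _ _).trans_lt hγα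
      YM := hYM
      Yg := by
        rintro o _ ⟨i, hi, rfl⟩ hz
        exact hY _ (hMg o _ (he i (lt_trans hi hακ)) hz) (hvα i hi i hi (.op o))
      Ypair := by
        rintro _ ⟨i, hi, rfl⟩ _ ⟨j, hj, rfl⟩
        exact hY _ (hMpair _ (he i (lt_trans hi hακ)) _ (he j (lt_trans hj hακ)))
          (hvα i hi j hj .pr)
      Yapp := by
        rintro _ ⟨i, hi, rfl⟩ β hβ h
        exact hY _ h (hvα i hi β hβ .ap)
      Yamen := by
        rintro _ ⟨i, hi, rfl⟩ h
        exact hY _ h (hvα i hi i hi .am)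
      Yord := fun β hβ => hY _ (hgood.ord β (hβ.trans hακ).le) (hvα β hβ β hβ .od)
      YK := hY _ (hgood.ord _ le_rfl) (hvα 0 h0α 0 h0α .kk)
      Yrank := by
        rintro β hβ ⟨i, hi, h⟩
        have h1 := hvα i hi i hi .rk
        have h2 : e i ∈ κ.ord.toZFSet := by
          rw [h]
          exact toZFSet_mem_toZFSet_iff.2 hβ
        have h3 : val i i .rk = rank (e i) := if_pos h2
        rw [h3, h, rank_toZFSet] at h1
        exact h1
      Yp := fun i hi j hj => hvα i hi j hj .pp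
      Ycard := by
        refine mk_image_le.trans ?_
        rw [Cardinal.mk_Iio_ordinal]
      gen := by
        rintro _ ⟨i, hi, rfl⟩ hU
        exact hgen α hαS hCl i hi hU
      cofinal := by
        rintro s hs ⟨a, ha, ha0, haα⟩
        choose i hi hsi using fun n => (hs n).1
        have hsm : #(Set.range i) < Cardinal.lift.{u + 1} a := by
          refine lt_of_le_of_lt (b := ℵ₀) ?_ (by simpa using ha0)
          exact Cardinal.mk_le_aleph0_iff.2 (Set.countable_range _).to_subtype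
        obtain ⟨b, hb, hb'⟩ := exists_bound ha hsm (by
          rintro _ ⟨n, rfl⟩
          rw [haα]
          exact hi n)
        rw [haα] at hb
        obtain ⟨h1, h2, h3⟩ := hnT b (hb.trans hακ)
        refine ⟨nT b, (le_max_right _ _).trans_lt (hα b hb b hb), fun n => ?_⟩
        have h4 := hgen _ h1 h2 (i n) ((hb' _ ⟨n, rfl⟩).trans h3) (by rw [hsi]; exact (hs n).2)
        rwa [hsi] at h4
      hη := fun h => hηc α ((le_max_right _ _).trans hγα.le) h }
  obtain ⟨a, h1, h2, h3, N, V, h4, h5, h6⟩ := L.result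
  exact hbad' α a h1 h2 h3 ((le_max_left _ _).trans_lt hγα) hακ N V h4 h5 h6

end Pool.Agent.X177.RL
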