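import Pool.Agent.X177.RL.Tools

set_option autoImplicit false

namespace Pool.Agent.X177.RL

open Cardinal Ordinal ZFSet

universe u

/-- The names of the operations. -/
inductive Op : Type
  | sk (φ : Fml) (i : ℕ) : Op
  | B : Op
  | cut : Op
  | code : Op
  | dec : Op
  | diff : Op
  | nxt : Op
  | mix : Op
  | diag : Op
  | bnd : Op
  | X : Op
  | cof : Op
  deriving Countable

/-- The parameters of the operations. -/
structure Par where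
  κ : Cardinal.{u}
  Θ : Ordinal.{u} → Cardinal.{u}
  X : Ordinal.{u} → ZFSet.{u}
  p : Ordinal.{u} → Ordinal.{u} → Ordinal.{u}
  η : Ordinal.{u} → Ordinal.{u}
  c : Ordinal.{u} → Ordinal.{u} → Ordinal.{u}

variable (P : Par.{u})

open Classical in
/-- The value at `ξ`, truncated to `H(Θ ξ)`. -/
noncomputable def ev (ξ : Ordinal.{u}) (w : ZFSet.{u}) : ZFSet.{u} :=
  if app w ξ.toZFSet ∈ H (P.Θ ξ) then app w ξ.toZFSet else ∅

open Classical in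
/-- The values of the Skolem functions. -/
noncomputable def skVal (φ : Fml) (i : ℕ) (z : ZFSet.{u}) (ξ : Ordinal.{u}) : ZFSet.{u} :=
  if h : ∃ a ∈ H (P.Θ ξ), Sat (H (P.Θ ξ)) φ (Function.update (fun n => ev P ξ (nth z n)) i a) then
    h.choose else ∅

/-- The sets of `opB`. -/
noncomputable def bVal (w : ZFSet.{u}) (ν : Ordinal.{u}) : ZFSet.{u} :=
  ords P.κ.ord fun ξ => ν.toZFSet ∈ ev P ξ w

noncomputable def codeVal (w : ZFSet.{u}) (ξ : Ordinal.{u}) : ZFSet.{u} :=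
  ords ξ fun ν => ∃ η < ξ, ∃ ζ < ξ, ν = P.p η ζ ∧ ζ.toZFSet ∈ app (ev P ξ w) η.toZFSet

noncomputable def decVal (R : ZFSet.{u}) (η : Ordinal.{u}) : ZFSet.{u} :=
  ords P.κ.ord fun ζ => (P.p η ζ).toZFSet ∈ R

open Classical in
noncomputable def mixVal (s R : ZFSet.{u}) (η : Ordinal.{u}) : ZFSet.{u} :=
  if η.toZFSet ∈ R then app s η.toZFSet else P.κ.ord.toZFSet

noncomputable def cofVal (ξ : Ordinal.{u}) : ZFSet.{u} :=
  ords ξ fun ν => ∃ i < P.η ξ, ν = P.p i (P.c ξ i)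

noncomputable def innerVal (R : ZFSet.{u}) (i : Ordinal.{u}) : Ordinal.{u} :=
  sInf {ζ | ζ < P.κ.ord ∧ (P.p i ζ).toZFSet ∈ R}

/-- The operations. -/
noncomputable def g : Op → ZFSet.{u} → ZFSet.{u}
  | .sk φ i, z => seq P.κ.ord (skVal P φ i z)
  | .B, z => seq P.κ.ord (bVal P z)
  | .cut, z => seq P.κ.ord fun ξ => z ∩ ξ.toZFSet
  | .code, z => seq P.κ.ord (codeVal P z)
  | .dec, z => seq P.κ.ord (decVal P z)
  | .diff, z => fst z \ snd z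
  | .nxt, z => (sInf {β : Ordinal.{u} | β.toZFSet ∈ fst z ∧ rank (snd z) ≤ β}).toZFSet
  | .mix, z => seq P.κ.ord (mixVal P (fst z) (snd z))
  | .diag, z => diag P.κ fun η => app z η.toZFSet
  | .bnd, z => (sInf {b : Ordinal.{u} | ∀ i < rank (snd z), innerVal P (fst z) i < b}).toZFSet
  | .X, _ => seq P.κ.ord P.X
  | .cof, _ => seq P.κ.ord (cofVal P)

/-- Good parameters. -/
structure Par.Ok : Prop where
  reg : P.κ.IsRegular
  unc : ℵ₀ < P.κ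
  Θreg : ∀ ξ, ℵ₀ ≤ P.Θ ξ
  Θcard : ∀ ξ, ξ.card < P.Θ ξ
  XH : ∀ ξ, P.X ξ ∈ H (P.Θ ξ)
  pK : ∀ i < P.κ.ord, ∀ j < P.κ.ord, P.p i j < P.κ.ord
  pinj : ∀ i < P.κ.ord, ∀ j < P.κ.ord, ∀ i' < P.κ.ord, ∀ j' < P.κ.ord, P.p i j = P.p i' j' →
    i = i' ∧ j = j'

variable {P}

theorem ev_mem (hP : P.Ok) (ξ : Ordinal.{u}) (w : ZFSet.{u}) : ev P ξ w ∈ H (P.Θ ξ) := by
  rw [ev]
  split_ifs with h
  · exact h
  · exact empty_mem_H (hP.Θreg ξ)

theorem ev_seq {f : Ordinal.{u} → ZFSet.{u}} {ξ : Ordinal.{u}} (hξ : ξ < P.κ.ord)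
    (hf : f ξ ∈ H (P.Θ ξ)) : ev P ξ (seq P.κ.ord f) = f ξ := by
  rw [ev, app_seq hξ, if_pos hf]

theorem skVal_mem (hP : P.Ok) (φ : Fml) (i : ℕ) (z : ZFSet.{u}) (ξ : Ordinal.{u}) :
    skVal P φ i z ξ ∈ H (P.Θ ξ) := by
  rw [skVal]
  split_ifs with h
  · exact h.choose_spec.1
  · exact empty_mem_H (hP.Θreg ξ)

theorem skVal_spec {φ : Fml} {i : ℕ} {z : ZFSet.{u}} {ξ : Ordinal.{u}}
    (h : ∃ a ∈ H (P.Θ ξ), Sat (H (P.Θ ξ)) φ (Function.update (fun n => ev P ξ (nth z n)) i a)) :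
    Sat (H (P.Θ ξ)) φ (Function.update (fun n => ev P ξ (nth z n)) i (skVal P φ i z ξ)) := by
  rw [skVal, dif_pos h]
  exact h.choose_spec.2

theorem sub_mem (hP : P.Ok) {ξ : Ordinal.{u}} {A : ZFSet.{u}} (hA : A ⊆ ξ.toZFSet) :
    A ∈ H (P.Θ ξ) := subset_toZFSet_mem_H (hP.Θreg ξ) hA (hP.Θcard ξ)

theorem inter_sub (z : ZFSet.{u}) (ξ : Ordinal.{u}) : z ∩ ξ.toZFSet ⊆ ξ.toZFSet :=
  fun _ h => (mem_inter.1 h).2

/-- The set on which the operations are considered. -/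
structure ZOk (P : Par.{u}) (Z : ZFSet.{u}) : Prop where
  pair : ∀ a ∈ Z, ∀ b ∈ Z, pair a b ∈ Z
  sub : ∀ A : ZFSet.{u}, A ⊆ P.κ.ord.toZFSet → A ∈ Z
  seqH : ∀ f : Ordinal.{u} → ZFSet.{u}, (∀ ξ < P.κ.ord, f ξ ∈ H (P.Θ ξ)) → seq P.κ.ord f ∈ Z
  seqS : ∀ f : Ordinal.{u} → ZFSet.{u}, (∀ ξ < P.κ.ord, f ξ ⊆ P.κ.ord.toZFSet) →
    seq P.κ.ord f ∈ Z

theorem exists_Z (P : Par.{u}) : ∃ Z : ZFSet.{u}, ZOk P Z := by
  have hb : BddAbove (Set.range fun ξ : Set.Iio P.κ.ord => (P.Θ ξ.1).ord) :=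
    Ordinal.bddAbove_of_small
  obtain ⟨e0, he0⟩ := hb
  set ε : Ordinal.{u} := max e0 P.κ.ord
  have hlim : Order.IsSuccLimit (ε + ω) := isSuccLimit_add ε isSuccLimit_omega0
  have hlt : ε < ε + ω := lt_add_of_pos_right ε omega0_pos
  have hκ : P.κ.ord ≤ ε := le_max_right _ _
  have hΘ : ∀ ξ < P.κ.ord, (P.Θ ξ).ord ≤ ε := fun ξ hξ =>
    (he0 ⟨⟨ξ, hξ⟩, rfl⟩).trans (le_max_left _ _)
  have hsub : ∀ A : ZFSet.{u}, A ⊆ P.κ.ord.toZFSet → rank A ≤ ε := by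
    intro A hA
    have := rank_mono hA
    rw [rank_toZFSet] at this
    exact this.trans hκ
  refine ⟨V_ (ε + ω), ?_, ?_, ?_, ?_⟩
  · intro a ha b hb
    rw [mem_vonNeumann] at ha hb ⊢
    exact rank_pair_lt hlim ha hb
  · intro A hA
    rw [mem_vonNeumann]
    exact (hsub A hA).trans_lt hlt
  · intro f hf
    rw [mem_vonNeumann]
    exact rank_seq_lt hlim (hκ.trans_lt hlt) hlt fun ξ hξ =>
      (rank_lt_of_mem_H (hf ξ hξ)).le.trans (hΘ ξ hξ)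
  · intro f hf
    rw [mem_vonNeumann]
    exact rank_seq_lt hlim (hκ.trans_lt hlt) hlt fun ξ hξ => hsub _ (hf ξ hξ)

end Pool.Agent.X177.RL
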