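import Pool.Agent.X177.RL.Elem

set_option autoImplicit false

namespace Pool.Agent.X177.RL

open Cardinal Ordinal ZFSet

universe u

/-! ### Formulas -/

/-- A bound for the variables of a formula. -/
def vb : Fml → ℕ
  | .mem i j => max (i + 1) (j + 1)
  | .eq i j => max (i + 1) (j + 1)
  | .neg φ => vb φ
  | .and φ ψ => max (vb φ) (vb ψ)
  | .ex _ φ => vb φ

theorem sat_congr {A : Set ZFSet.{u}} (φ : Fml) : ∀ {v w : ℕ → ZFSet.{u}},
    (∀ n < vb φ, v n = w n) → (Sat A φ v ↔ Sat A φ w) := by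
  induction φ with
  | mem i j =>
    intro v w h
    simp only [Sat]
    rw [h i (lt_of_lt_of_le (Nat.lt_succ_self i) (le_max_left _ _)),
      h j (lt_of_lt_of_le (Nat.lt_succ_self j) (le_max_right _ _))]
  | eq i j =>
    intro v w h
    simp only [Sat]
    rw [h i (lt_of_lt_of_le (Nat.lt_succ_self i) (le_max_left _ _)),
      h j (lt_of_lt_of_le (Nat.lt_succ_self j) (le_max_right _ _))]
  | neg φ ih =>
    intro v w h
    simp only [Sat]
    rw [ih h]
  | and φ ψ ih1 ih2 =>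
    intro v w h
    simp only [Sat]
    rw [ih1 fun n hn => h n (hn.trans_le (le_max_left _ _)),
      ih2 fun n hn => h n (hn.trans_le (le_max_right _ _))]
  | ex i φ ih =>
    intro v w h
    simp only [Sat]
    refine exists_congr fun a => and_congr_right fun _ => ih fun n hn => ?_
    by_cases hni : n = i
    · subst hni; simp
    · rw [Function.update_of_ne hni, Function.update_of_ne hni]
      exact h n hn

/-- The Tarski-Vaught test. -/
theorem elem_of {N A : Set ZFSet.{u}} (hNA : N ⊆ A)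
    (h : ∀ (φ : Fml) (i : ℕ) (v : ℕ → ZFSet.{u}), (∀ n, v n ∈ N) →
      (∃ a ∈ A, Sat A φ (Function.update v i a)) → ∃ a ∈ N, Sat A φ (Function.update v i a)) :
    Elem N A := by
  refine ⟨hNA, ?_⟩
  intro φ
  induction φ with
  | mem i j => intro v _; rfl
  | eq i j => intro v _; rfl
  | neg φ ih =>
    intro v hv
    simp only [Sat]
    rw [ih v hv]
  | and φ ψ ih1 ih2 =>
    intro v hv
    simp only [Sat]
    rw [ih1 v hv, ih2 v hv]
  | ex i φ ih =>
    intro v hv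
    simp only [Sat]
    constructor
    · rintro ⟨a, ha, h1⟩
      exact ⟨a, hNA ha, (ih _ (update_mem hv ha)).1 h1⟩
    · intro h1
      obtain ⟨a, ha, h2⟩ := h φ i v hv h1
      exact ⟨a, ha, (ih _ (update_mem hv ha)).2 h2⟩

/-- A code of the first `m` values of `v`. -/
noncomputable def enc (v : ℕ → ZFSet.{u}) : ℕ → ZFSet.{u}
  | 0 => ∅
  | m + 1 => pair (v 0) (enc (fun n => v (n + 1)) m)

/-- The `n`-th entry. -/
noncomputable def nth (z : ZFSet.{u}) : ℕ → ZFSet.{u}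
  | 0 => fst z
  | n + 1 => nth (snd z) n

theorem nth_enc (m : ℕ) : ∀ (n : ℕ) (v : ℕ → ZFSet.{u}), n < m → nth (enc v m) n = v n := by
  induction m with
  | zero => intro n v h; exact absurd h (Nat.not_lt_zero n)
  | succ m ih =>
    intro n v h
    cases n with
    | zero => simp [enc, nth]
    | succ n =>
      rw [enc, nth, snd_pair]
      exact ih n _ (by omega)

theorem enc_mem {Y : Set ZFSet.{u}} (h0 : ∅ ∈ Y) (hp : ∀ a ∈ Y, ∀ b ∈ Y, pair a b ∈ Y) (m : ℕ) :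
    ∀ v : ℕ → ZFSet.{u}, (∀ n, v n ∈ Y) → enc v m ∈ Y := by
  induction m with
  | zero => intro v _; exact h0
  | succ m ih => intro v hv; exact hp _ (hv 0) _ (ih _ fun n => hv (n + 1))

/-! ### Ordinals -/

theorem exists_bound {κ : Cardinal.{u}} (hκ : κ.IsRegular) {s : Set Ordinal.{u}}
    (hs : #s < Cardinal.lift.{u + 1} κ) (h : ∀ i ∈ s, i < κ.ord) :
    ∃ b < κ.ord, ∀ i ∈ s, i < b := by
  refine ⟨sSup ((· + 1) '' s), ?_, ?_⟩
  · apply sSup_add_one_lt_of_lt_cof _ h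
    rwa [← lift_cof, hκ.cof_ord]
  · intro i hi
    have hb : BddAbove ((· + 1) '' s) := by
      refine ⟨κ.ord, ?_⟩
      rintro _ ⟨j, hj, rfl⟩
      exact Order.add_one_le_of_lt (h j hj)
    exact lt_of_lt_of_le (Order.lt_succ i) (le_csSup hb ⟨i, hi, rfl⟩)

theorem ord_isSuccLimit {κ : Cardinal.{u}} (hκ : κ.IsRegular) : Order.IsSuccLimit κ.ord :=
  isSuccLimit_ord hκ.aleph0_le

/-- A bound for the values of a function of two variables. -/
theorem exists_bound₂ {κ : Cardinal.{u}} (hκ : κ.IsRegular) (ν : Ordinal.{u} → Ordinal.{u} →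
    Ordinal.{u}) (hν : ∀ i < κ.ord, ∀ j < κ.ord, ν i j < κ.ord) {δ : Ordinal.{u}}
    (hδ : δ < κ.ord) : ∃ b < κ.ord, δ < b ∧ ∀ i < δ, ∀ j < δ, ν i j < b := by
  have hc : δ.card < κ := (Cardinal.lt_ord).1 hδ
  have h1 : #(Set.Iio δ × Set.Iio δ) < Cardinal.lift.{u + 1} κ := by
    rw [mk_prod, Cardinal.lift_id, Cardinal.mk_Iio_ordinal]
    have h0 : (Ordinal.lift.{u + 1} δ).card < Cardinal.lift.{u + 1} κ := by
      rw [← Ordinal.lift_card, Cardinal.lift_lt]
      exact hc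
    exact Cardinal.mul_lt_of_lt (by simpa using hκ.aleph0_le) (by simpa using h0) (by simpa using h0)
  have h2 : #(Set.range fun p : Set.Iio δ × Set.Iio δ => ν p.1 p.2) < Cardinal.lift.{u + 1} κ :=
    mk_range_le.trans_lt h1
  obtain ⟨b, hb, hb'⟩ := exists_bound hκ h2 (by
    rintro _ ⟨⟨⟨i, hi⟩, ⟨j, hj⟩⟩, rfl⟩
    exact hν i (lt_trans hi hδ) j (lt_trans hj hδ))
  refine ⟨max b (Order.succ δ), max_lt hb ((ord_isSuccLimit hκ).succ_lt hδ),
    lt_of_lt_of_le (Order.lt_succ δ) (le_max_right _ _), ?_⟩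
  intro i hi j hj
  exact (hb' _ ⟨⟨⟨i, hi⟩, ⟨j, hj⟩⟩, rfl⟩).trans_le (le_max_left _ _)

theorem isClub_closure {κ : Cardinal.{u}} (hκ : κ.IsRegular) (hκ' : ℵ₀ < κ)
    (ν : Ordinal.{u} → Ordinal.{u} → Ordinal.{u})
    (hν : ∀ i < κ.ord, ∀ j < κ.ord, ν i j < κ.ord) :
    IsClub κ {δ | δ < κ.ord ∧ δ ≠ 0 ∧ ∀ i < δ, ∀ j < δ, ν i j < δ} := by
  refine ⟨fun β h => h.1, ?_, ?_⟩
  · intro γ hγ
    have hstep : ∀ δ : Set.Iio κ.ord, ∃ b : Set.Iio κ.ord, δ.1 < b.1 ∧
        ∀ i < δ.1, ∀ j < δ.1, ν i j < b.1 := by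
      rintro ⟨δ, hδ⟩
      obtain ⟨b, hb, h1, h2⟩ := exists_bound₂ hκ ν hν hδ
      exact ⟨⟨b, hb⟩, h1, h2⟩
    choose f hf1 hf2 using hstep
    let d : ℕ → Set.Iio κ.ord := fun n => Nat.rec ⟨γ, hγ⟩ (fun _ x => f x) n
    have hd : ∀ n, d (n + 1) = f (d n) := fun n => rfl
    have hs : #(Set.range fun n => (d n).1) < Cardinal.lift.{u + 1} κ := by
      refine lt_of_le_of_lt (b := ℵ₀) ?_ (by simpa using hκ')
      exact Cardinal.mk_le_aleph0_iff.2 (Set.countable_range _).to_subtype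
    obtain ⟨b, hb, hb'⟩ := exists_bound hκ hs (by
      rintro _ ⟨n, rfl⟩
      exact (d n).2)
    set δ := ⨆ n, (d n).1 with hδ
    have hle : ∀ n, (d n).1 ≤ δ := fun n => Ordinal.le_iSup (fun n => (d n).1) n
    have hlt : ∀ n, (d n).1 < δ := by
      intro n
      refine lt_of_lt_of_le (hf1 (d n)) ?_
      rw [← hd]
      exact hle (n + 1)
    have hδb : δ ≤ b := by
      rw [hδ, Ordinal.iSup_le_iff]
      intro n
      exact (hb' _ ⟨n, rfl⟩).le
    refine ⟨δ, ⟨hδb.trans_lt hb, ?_, ?_⟩, hlt 0⟩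
    · intro h0
      have := hlt 0
      rw [h0] at this
      exact absurd this (not_lt_zero)
    · intro i hi j hj
      rw [hδ, Ordinal.lt_iSup_iff] at hi hj
      obtain ⟨n, hn⟩ := hi
      obtain ⟨m, hm⟩ := hj
      have hmono : Monotone fun n => (d n).1 :=
        monotone_nat_of_le_succ fun n => (hf1 (d n)).le
      have h1 : i < (d (max n m)).1 := hn.trans_le (hmono (le_max_left _ _))
      have h2 : j < (d (max n m)).1 := hm.trans_le (hmono (le_max_right _ _))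
      have h3 : (f (d (max n m))).1 ≤ δ := hle (max n m + 1)
      exact (hf2 _ i h1 j h2).trans_le h3
  · intro δ hδ h0 h
    refine ⟨hδ, h0, fun i hi j hj => ?_⟩
    obtain ⟨β, hβ, h1, h2⟩ := h (max i j) (max_lt hi hj)
    exact (hβ.2.2 i ((le_max_left _ _).trans_lt h1) j ((le_max_right _ _).trans_lt h1)).trans h2

theorem exists_cofinal {α : Ordinal.{u}} (hα : ω ≤ α)
    (h : ¬ ∃ a : Cardinal.{u}, a.IsRegular ∧ a.ord = α) :
    ∃ η < α, ∃ c : Ordinal.{u} → Ordinal.{u}, (∀ i < η, c i < α) ∧ ∀ ζ < α, ∃ i < η, ζ ≤ c i := by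
  have hne : α.cof.ord ≠ α := by
    intro he
    refine h ⟨α.cof, ⟨?_, ?_⟩, he⟩
    · rw [← ord_le_ord, ord_aleph0, he]
      exact hα
    · rw [he]
  have hlt : α.cof.ord < α := lt_of_le_of_ne (ord_cof_le α) hne
  obtain ⟨f, hf⟩ := exists_isFundamentalSeq (o := α) rfl
  classical
  refine ⟨α.cof.ord, hlt, fun i => if hi : i < α.cof.ord then (f ⟨i, hi⟩).1 else 0, ?_, ?_⟩
  · intro i hi
    simp only [dif_pos hi]
    exact (f ⟨i, hi⟩).2
  · intro ζ hζ
    obtain ⟨_, ⟨⟨i, hi⟩, rfl⟩, h2⟩ := hf.isCofinal_range ⟨ζ, hζ⟩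
    refine ⟨i, hi, ?_⟩
    simp only [dif_pos (show i < α.cof.ord from hi)]
    exact h2

end Pool.Agent.X177.RL
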